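import Mathlib

set_option autoImplicit false

namespace Pool.Agent.Helper50.Bergman

open Complex MeasureTheory Metric Set Filter Topology Real

/-- `A k = ∏_{j ≤ k} 2^(j+1)` -/
def A : ℕ → ℕ
  | 0 => 2
  | k + 1 => A k * 2 ^ (k + 2)

/-- the exponents -/
def n (k : ℕ) : ℕ := (k + 1) * A k

theorem A_pos (k : ℕ) : 0 < A k := by
  induction k with
  | zero => simp [A]
  | succ k ih => simp [A, ih]

theorem A_eq_prod (k : ℕ) : A k = ∏ j ∈ Finset.range (k + 1), 2 ^ (j + 1) := by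
  induction k with
  | zero => simp [A]
  | succ k ih => rw [Finset.prod_range_succ, ← ih]; rfl

theorem n_pos (k : ℕ) : 0 < n k := Nat.mul_pos (Nat.succ_pos k) (A_pos k)

theorem two_mul_n_le (k : ℕ) : 2 * n k ≤ n (k + 1) := by
  unfold n
  simp only [A]
  have h1 : 2 ≤ 2 ^ (k + 2) := by
    calc 2 = 2 ^ 1 := by norm_num
      _ ≤ 2 ^ (k + 2) := Nat.pow_le_pow_right (by norm_num) (by omega)
  calc 2 * ((k + 1) * A k) = (k + 1) * (A k * 2) := by ring
    _ ≤ (k + 1 + 1) * (A k * 2 ^ (k + 2)) := by gcongr; omega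

theorem n_strictMono : StrictMono n := strictMono_nat_of_lt_succ fun k => by
  have := two_mul_n_le k
  have := n_pos k
  omega

theorem pow_le_A (k : ℕ) : 2 ^ (k + 1) ≤ A k := by
  cases k with
  | zero => simp [A]
  | succ k =>
    simp only [A]
    have := A_pos k
    calc 2 ^ (k + 1 + 1) = 1 * 2 ^ (k + 2) := by ring
      _ ≤ _ := Nat.mul_le_mul_right _ this

theorem A_le_n (k : ℕ) : A k ≤ n k := by
  unfold n
  exact Nat.le_mul_of_pos_left _ (Nat.succ_pos k)

theorem pow_le_n (k : ℕ) : 2 ^ (k + 1) ≤ n k := (pow_le_A k).trans (A_le_n k)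

theorem two_dvd_A (k : ℕ) : 2 ∣ A k := by
  induction k with
  | zero => simp [A]
  | succ k ih => exact Dvd.dvd.mul_right ih _

theorem sum_n_le (k : ℕ) : ∑ j ∈ Finset.range (k + 1), n j ≤ 2 * n k := by
  induction k with
  | zero => simp; omega
  | succ k ih =>
    rw [Finset.sum_range_succ]
    have := two_mul_n_le k
    omega

theorem two_mul_A_le (k : ℕ) : 2 * A k ≤ A (k + 1) := by
  simp only [A]
  have h1 : 2 ≤ 2 ^ (k + 2) := by
    calc 2 = 2 ^ 1 := by norm_num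
      _ ≤ 2 ^ (k + 2) := Nat.pow_le_pow_right (by norm_num) (by omega)
  calc 2 * A k = A k * 2 := by ring
    _ ≤ _ := Nat.mul_le_mul_left _ h1

theorem sum_A_le (k : ℕ) : ∑ j ∈ Finset.range (k + 1), A j ≤ 2 * A k := by
  induction k with
  | zero => simp [A]
  | succ k ih =>
    rw [Finset.sum_range_succ]
    have := two_mul_A_le k
    omega

/-- the geometric constant bound -/
theorem prod_one_add_le (m : ℕ) :
    ∏ k ∈ Finset.range m, (1 + (2 : ℝ) ^ (k + 1)) ≤
      3 * ∏ k ∈ Finset.range m, (2 : ℝ) ^ (k + 1) := by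
  have h1 : ∀ k : ℕ, (1 + (2 : ℝ) ^ (k + 1)) ≤ Real.exp ((1 / 2) ^ (k + 1)) * 2 ^ (k + 1) := by
    intro k
    have h2 : (1 / 2 : ℝ) ^ (k + 1) + 1 ≤ Real.exp ((1 / 2) ^ (k + 1)) := Real.add_one_le_exp _
    have h3 : (0 : ℝ) < 2 ^ (k + 1) := by positivity
    have h4 : (1 / 2 : ℝ) ^ (k + 1) * 2 ^ (k + 1) = 1 := by
      rw [← mul_pow]; norm_num
    nlinarith
  calc ∏ k ∈ Finset.range m, (1 + (2 : ℝ) ^ (k + 1))
      ≤ ∏ k ∈ Finset.range m, (Real.exp ((1 / 2) ^ (k + 1)) * 2 ^ (k + 1)) :=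
        Finset.prod_le_prod (fun k _ => by positivity) (fun k _ => h1 k)
    _ = Real.exp (∑ k ∈ Finset.range m, (1 / 2) ^ (k + 1)) *
          ∏ k ∈ Finset.range m, (2 : ℝ) ^ (k + 1) := by
        rw [Finset.prod_mul_distrib, Real.exp_sum]
    _ ≤ 3 * ∏ k ∈ Finset.range m, (2 : ℝ) ^ (k + 1) := by
        gcongr
        have h5 : ∑ k ∈ Finset.range m, (1 / 2 : ℝ) ^ (k + 1) ≤ 1 := by
          have : ∀ m : ℕ, ∑ k ∈ Finset.range m, (1 / 2 : ℝ) ^ (k + 1) = 1 - (1 / 2) ^ m := by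
            intro m
            induction m with
            | zero => simp
            | succ m ih => rw [Finset.sum_range_succ, ih]; ring
          rw [this]
          have : (0 : ℝ) < (1 / 2) ^ m := by positivity
          linarith
        calc Real.exp (∑ k ∈ Finset.range m, (1 / 2) ^ (k + 1)) ≤ Real.exp 1 :=
              Real.exp_le_exp.2 h5
          _ ≤ 3 := by have := Real.exp_one_lt_d9; linarith

theorem A_cast (k : ℕ) : ((A k : ℕ) : ℝ) = ∏ j ∈ Finset.range (k + 1), (2 : ℝ) ^ (j + 1) := by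
  rw [A_eq_prod]; push_cast; rfl

theorem prod_le_sum (r : ℝ) (hr : 0 ≤ r) (hr1 : r ≤ 1) (m : ℕ) :
    ∏ k ∈ Finset.range m, (1 + (2 : ℝ) ^ (k + 1) * r ^ (n k)) ≤
      1 + 3 * ∑ k ∈ Finset.range m, (A k : ℝ) * r ^ (n k) := by
  induction m with
  | zero => simp
  | succ m ih =>
    have e0 : 1 + 3 * (∑ k ∈ Finset.range m, (A k : ℝ) * r ^ (n k) + (A m : ℝ) * r ^ (n m)) =
        (1 + 3 * ∑ k ∈ Finset.range m, (A k : ℝ) * r ^ (n k)) + 3 * ((A m : ℝ) * r ^ (n m)) := by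
      ring
    rw [Finset.prod_range_succ, Finset.sum_range_succ, e0, mul_add, mul_one]
    refine add_le_add ih ?_
    have h1 : ∏ k ∈ Finset.range m, (1 + (2 : ℝ) ^ (k + 1) * r ^ (n k)) ≤
        3 * ∏ k ∈ Finset.range m, (2 : ℝ) ^ (k + 1) := by
      refine le_trans ?_ (prod_one_add_le m)
      refine Finset.prod_le_prod (fun k _ => by positivity) (fun k _ => ?_)
      have : r ^ (n k) ≤ 1 := pow_le_one₀ hr hr1
      have h3 : (0 : ℝ) < 2 ^ (k + 1) := by positivity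
      nlinarith
    rw [A_cast m, Finset.prod_range_succ]
    calc (∏ k ∈ Finset.range m, (1 + (2 : ℝ) ^ (k + 1) * r ^ (n k))) * (2 ^ (m + 1) * r ^ (n m))
        ≤ (3 * ∏ k ∈ Finset.range m, (2 : ℝ) ^ (k + 1)) * (2 ^ (m + 1) * r ^ (n m)) := by
          gcongr
      _ = _ := by ring

/-- summability -/
theorem summable_A {r : ℝ} (hr : 0 ≤ r) (hr1 : r < 1) :
    Summable fun k => (A k : ℝ) * r ^ (n k) := by
  have h1 : Summable fun m : ℕ => ((m : ℝ) ^ 1 * r ^ m) :=
    summable_pow_mul_geometric_of_norm_lt_one 1 (by rwa [Real.norm_of_nonneg hr])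
  have h2 : Summable fun k => (((n k : ℕ) : ℝ) ^ 1 * r ^ (n k)) :=
    h1.comp_injective n_strictMono.injective
  refine Summable.of_nonneg_of_le (fun k => by positivity) (fun k => ?_) h2
  rw [pow_one]
  have : (A k : ℝ) ≤ (n k : ℝ) := by exact_mod_cast A_le_n k
  gcongr

theorem summable_A_sq {r : ℝ} (hr : 0 ≤ r) (hr1 : r < 1) :
    Summable fun k => (A k : ℝ) ^ 2 * r ^ (n k) := by
  have h1 : Summable fun m : ℕ => ((m : ℝ) ^ 2 * r ^ m) :=
    summable_pow_mul_geometric_of_norm_lt_one 2 (by rwa [Real.norm_of_nonneg hr])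
  have h2 : Summable fun k => (((n k : ℕ) : ℝ) ^ 2 * r ^ (n k)) :=
    h1.comp_injective n_strictMono.injective
  refine Summable.of_nonneg_of_le (fun k => by positivity) (fun k => ?_) h2
  have : (A k : ℝ) ≤ (n k : ℝ) := by exact_mod_cast A_le_n k
  gcongr

theorem summable_term {r : ℝ} (hr : 0 ≤ r) (hr1 : r < 1) :
    Summable fun k => (2 : ℝ) ^ (k + 1) * r ^ (n k) := by
  refine Summable.of_nonneg_of_le (fun k => by positivity) (fun k => ?_) (summable_A hr hr1)
  have : (2 : ℝ) ^ (k + 1) ≤ A k := by exact_mod_cast pow_le_A k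
  gcongr

/-- square of the partial sum -/
theorem sq_sum_le (r : ℝ) (hr : 0 ≤ r) (hr1 : r ≤ 1) (m : ℕ) :
    (∑ k ∈ Finset.range m, (A k : ℝ) * r ^ (n k)) ^ 2 ≤
      4 * ∑ k ∈ Finset.range m, (A k : ℝ) ^ 2 * r ^ (n k) := by
  induction m with
  | zero => simp
  | succ m ih =>
    rw [Finset.sum_range_succ, Finset.sum_range_succ]
    set S := ∑ k ∈ Finset.range m, (A k : ℝ) * r ^ (n k) with hS
    have hS0 : 0 ≤ S := Finset.sum_nonneg fun k _ => by positivity
    have hr' : r ^ (n m) ≤ 1 := pow_le_one₀ hr hr1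
    have hr0 : 0 ≤ r ^ (n m) := by positivity
    have hSA : S ≤ A m := by
      have h1 : S ≤ ∑ k ∈ Finset.range m, (A k : ℝ) := by
        refine Finset.sum_le_sum fun k _ => ?_
        have : r ^ (n k) ≤ 1 := pow_le_one₀ hr hr1
        have : (0 : ℝ) ≤ A k := by positivity
        nlinarith
      refine h1.trans ?_
      cases m with
      | zero => simp
      | succ m =>
        have h2 := sum_A_le m
        have h3 := two_mul_A_le m
        have h4 : ∑ k ∈ Finset.range (m + 1), A k ≤ A (m + 1) := h2.trans h3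
        exact_mod_cast h4
    have hA0 : (0 : ℝ) ≤ A m := by positivity
    set x := r ^ (n m) with hx
    have e1 : (S + A m * x) ^ 2 = S ^ 2 + (2 * S * A m * x + (A m) ^ 2 * x ^ 2) := by ring
    rw [e1, mul_add]
    refine add_le_add ih ?_
    have e2 : 2 * S * A m * x ≤ 2 * (A m) ^ 2 * x := by
      have : S * (A m * x) ≤ A m * (A m * x) := by gcongr
      nlinarith
    have e3 : (A m : ℝ) ^ 2 * x ^ 2 ≤ (A m) ^ 2 * x := by
      have : x ^ 2 ≤ x := by nlinarith
      gcongr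
    have e4 : 0 ≤ (A m : ℝ) ^ 2 * x := by positivity
    nlinarith

theorem sq_tsum_le {r : ℝ} (hr : 0 ≤ r) (hr1 : r < 1) :
    (∑' k, (A k : ℝ) * r ^ (n k)) ^ 2 ≤ 4 * ∑' k, (A k : ℝ) ^ 2 * r ^ (n k) := by
  have h1 := ((summable_A hr hr1).hasSum.tendsto_sum_nat).pow 2
  have h2 := ((summable_A_sq hr hr1).hasSum.tendsto_sum_nat).const_mul 4
  exact le_of_tendsto_of_tendsto' h1 h2 fun m => sq_sum_le r hr hr1.le m

/-! ### The product -/

/-- the `k`-th term -/
noncomputable def term (k : ℕ) (z : ℂ) : ℂ := (2 : ℂ) ^ (k + 1) * z ^ (n k)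

theorem norm_term (k : ℕ) (z : ℂ) : ‖term k z‖ = 2 ^ (k + 1) * ‖z‖ ^ (n k) := by
  simp [term]

/-- tail products -/
noncomputable def T (K : ℕ) (z : ℂ) : ℂ := ∏' k, (1 + term (k + K) z)

theorem multipliable_T (K : ℕ) {z : ℂ} (hz : ‖z‖ < 1) :
    Multipliable fun k => (1 + term (k + K) z) := by
  apply multipliable_one_add_of_summable
  have h1 := summable_term (norm_nonneg z) hz
  have h2 := (summable_nat_add_iff K).2 h1
  simpa only [norm_term] using h2

theorem differentiableOn_T (K : ℕ) : DifferentiableOn ℂ (T K) (ball (0 : ℂ) 1) := by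
  intro z hz
  rw [mem_ball_zero_iff] at hz
  obtain ⟨r, hr1, hr2⟩ := exists_between hz
  have hr0 : 0 ≤ r := (norm_nonneg z).trans hr1.le
  have h1 := (summable_nat_add_iff K).2 (summable_term hr0 hr2)
  have h2 : HasProdLocallyUniformlyOn (fun k z => 1 + term (k + K) z)
      (fun z => ∏' k, (1 + term (k + K) z)) (ball (0 : ℂ) r) := by
    refine Summable.hasProdLocallyUniformlyOn_nat_one_add isOpen_ball h1 ?_ ?_
    · refine Eventually.of_forall fun k x hx => ?_
      rw [norm_term]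
      rw [mem_ball_zero_iff] at hx
      gcongr
    · intro k
      unfold term
      fun_prop
  have h3 := h2.tendstoLocallyUniformlyOn_finsetRange
  have h4 : DifferentiableOn ℂ (T K) (ball (0 : ℂ) r) := by
    refine h3.differentiableOn (Eventually.of_forall fun m => ?_) isOpen_ball
    unfold term
    fun_prop
  have h5 : DifferentiableAt ℂ (T K) z :=
    h4.differentiableAt (isOpen_ball.mem_nhds (by rwa [mem_ball_zero_iff]))
  exact h5.differentiableWithinAt

theorem T_zero (K : ℕ) : T K 0 = 1 := by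
  unfold T term
  have : ∀ k, (0 : ℂ) ^ (n (k + K)) = 0 := fun k => zero_pow (n_pos _).ne'
  simp [this]

theorem T_split (K : ℕ) {z : ℂ} (hz : ‖z‖ < 1) :
    T 0 z = (∏ k ∈ Finset.range K, (1 + term k z)) * T K z := by
  have := (multipliable_T K hz).prod_mul_tprod_nat_mul'
    (f := fun k => 1 + term k z) (k := K)
  unfold T
  rw [this]
  simp

theorem norm_T_le {z : ℂ} (hz : ‖z‖ < 1) :
    ‖T 0 z‖ ≤ 1 + 3 * ∑' k, (A k : ℝ) * ‖z‖ ^ (n k) := by
  have h1 := (multipliable_T 0 hz).hasProd.tendsto_prod_nat.norm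
  have h2 := summable_A (norm_nonneg z) hz
  refine le_of_tendsto h1 (Eventually.of_forall fun m => ?_)
  rw [norm_prod]
  calc ∏ k ∈ Finset.range m, ‖1 + term (k + 0) z‖
      ≤ ∏ k ∈ Finset.range m, (1 + (2 : ℝ) ^ (k + 1) * ‖z‖ ^ (n k)) := by
        refine Finset.prod_le_prod (fun k _ => norm_nonneg _) (fun k _ => ?_)
        calc ‖1 + term (k + 0) z‖ ≤ ‖(1 : ℂ)‖ + ‖term k z‖ := norm_add_le _ _
          _ = _ := by rw [norm_one, norm_term]
    _ ≤ 1 + 3 * ∑ k ∈ Finset.range m, (A k : ℝ) * ‖z‖ ^ (n k) :=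
        prod_le_sum _ (norm_nonneg _) hz.le _
    _ ≤ 1 + 3 * ∑' k, (A k : ℝ) * ‖z‖ ^ (n k) := by
        gcongr
        exact h2.sum_le_tsum _ fun k _ => by positivity

theorem norm_T_sq_le {z : ℂ} (hz : ‖z‖ < 1) :
    ‖T 0 z‖ ^ 2 ≤ 2 + 72 * ∑' k, (A k : ℝ) ^ 2 * ‖z‖ ^ (n k) := by
  have h1 := norm_T_le hz
  have h2 := sq_tsum_le (norm_nonneg z) hz
  set S := ∑' k, (A k : ℝ) * ‖z‖ ^ (n k)
  have h3 : ‖T 0 z‖ ^ 2 ≤ (1 + 3 * S) ^ 2 := by
    gcongr
  nlinarith [sq_nonneg (1 - 3 * S)]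

end Pool.Agent.Helper50.Bergman
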