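import Mathlib
import Pool.Agent.Helper50.Bergman1

set_option autoImplicit false

namespace Pool.Agent.Helper50.Bergman

open Complex MeasureTheory Metric Set Filter Topology Real

/-- Sub-mean value property of `log ‖F‖`. -/
theorem log_le_circleAverage {F : ℂ → ℂ} {r : ℝ} (hr : 0 < r)
    (hF : AnalyticOnNhd ℂ F (closedBall 0 |r|)) (h0 : F 0 ≠ 0) :
    Real.log ‖F 0‖ ≤ circleAverage (fun z => Real.log ‖F z‖) 0 r := by
  rw [AnalyticOnNhd.circleAverage_log_norm hr.ne' hF h0]
  have h1 : 0 ≤ ∑ᶠ u, (MeromorphicOn.divisor F (closedBall 0 |r|) u : ℝ) *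
      Real.log (r * ‖(0 : ℂ) - u‖⁻¹) := by
    apply finsum_nonneg
    intro u
    by_cases hu : u ∈ closedBall (0 : ℂ) |r|
    · apply mul_nonneg
      · have := (MeromorphicOn.AnalyticOnNhd.divisor_nonneg hF) u
        exact_mod_cast this
      · rw [zero_sub, norm_neg]
        rw [mem_closedBall_zero_iff, abs_of_pos hr] at hu
        rcases eq_or_ne u 0 with h2 | h2
        · simp [h2]
        · apply Real.log_nonneg
          have : 0 < ‖u‖ := norm_pos_iff.2 h2
          rw [← div_eq_mul_inv, le_div_iff₀ this]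
          linarith
    · have : MeromorphicOn.divisor F (closedBall 0 |r|) u = 0 :=
        Function.locallyFinsuppWithin.apply_eq_zero_of_notMem _ hu
      simp [this]
  linarith

/-- the reflected factor -/
theorem norm_reflect (c : ℝ) {w : ℂ} (hw : ‖w‖ = 1) : ‖1 + (c : ℂ) * w‖ = ‖(c : ℂ) + w‖ := by
  have h1 : (starRingEnd ℂ) w * w = 1 := by
    rw [mul_comm, Complex.mul_conj, Complex.normSq_eq_norm_sq, hw]; simp
  have h2 : 1 + (c : ℂ) * w = ((starRingEnd ℂ) w + c) * w := by rw [add_mul, h1]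
  rw [h2, norm_mul, hw, mul_one]
  have h3 : (starRingEnd ℂ) w + c = (starRingEnd ℂ) (w + c) := by simp
  rw [h3, Complex.norm_conj, add_comm]

/-- the reflected product -/
noncomputable def G (K : ℕ) (r : ℝ) (z : ℂ) : ℂ :=
  (∏ k ∈ Finset.range K, ((((2 : ℝ) ^ (k + 1) * r ^ (n k) : ℝ) : ℂ) + (z / r) ^ (n k))) * T K z

theorem analyticOnNhd_T (K : ℕ) {r : ℝ} (hr1 : |r| < 1) :
    AnalyticOnNhd ℂ (T K) (closedBall 0 |r|) := by
  have h1 : AnalyticOnNhd ℂ (T K) (ball 0 1) := (differentiableOn_T K).analyticOnNhd isOpen_ball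
  exact h1.mono (closedBall_subset_ball hr1)

theorem analyticOnNhd_G (K : ℕ) {r : ℝ} (hr1 : |r| < 1) :
    AnalyticOnNhd ℂ (G K r) (closedBall 0 |r|) := by
  unfold G
  refine AnalyticOnNhd.mul ?_ (analyticOnNhd_T K hr1)
  have : Differentiable ℂ fun z : ℂ =>
      ∏ k ∈ Finset.range K, ((((2 : ℝ) ^ (k + 1) * r ^ (n k) : ℝ) : ℂ) + (z / r) ^ (n k)) := by
    fun_prop
  exact fun z _ => this.analyticAt z

theorem G_zero (K : ℕ) (r : ℝ) :
    G K r 0 = ((∏ k ∈ Finset.range K, ((2 : ℝ) ^ (k + 1) * r ^ (n k)) : ℝ) : ℂ) := by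
  unfold G
  rw [T_zero, mul_one, Complex.ofReal_prod]
  refine Finset.prod_congr rfl fun k _ => ?_
  rw [zero_div, zero_pow (n_pos k).ne', add_zero]

theorem norm_G (K : ℕ) {r : ℝ} (hr : 0 < r) (hr1 : r < 1) {z : ℂ} (hz : ‖z‖ = r) :
    ‖G K r z‖ = ‖T 0 z‖ := by
  rw [T_split K (by rw [hz]; exact hr1)]
  unfold G
  rw [norm_mul, norm_mul, norm_prod, norm_prod]
  congr 1
  refine Finset.prod_congr rfl fun k _ => ?_
  have hw : ‖(z / r) ^ (n k)‖ = 1 := by
    rw [norm_pow, norm_div, hz, Complex.norm_real, Real.norm_of_nonneg hr.le, div_self hr.ne',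
      one_pow]
  rw [← norm_reflect _ hw]
  congr 2
  unfold term
  have hrc : (r : ℂ) ≠ 0 := by exact_mod_cast hr.ne'
  push_cast
  rw [div_pow]
  field_simp

/-- lower bound for circle averages of `log |f|` -/
theorem log_le_circleAverage_T (K : ℕ) {r : ℝ} (hr : 0 < r) (hr1 : r < 1) :
    Real.log (∏ k ∈ Finset.range K, ((2 : ℝ) ^ (k + 1) * r ^ (n k))) ≤
      circleAverage (fun z => Real.log ‖T 0 z‖) 0 r := by
  have habs : |r| = r := abs_of_pos hr
  have hpos : 0 < ∏ k ∈ Finset.range K, ((2 : ℝ) ^ (k + 1) * r ^ (n k)) :=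
    Finset.prod_pos fun k _ => by positivity
  have h1 : circleAverage (fun z => Real.log ‖T 0 z‖) 0 r =
      circleAverage (fun z => Real.log ‖G K r z‖) 0 r := by
    apply circleAverage_congr_sphere
    intro z hz
    rw [mem_sphere_zero_iff_norm, habs] at hz
    simp only
    rw [norm_G K hr hr1 hz]
  rw [h1]
  have h2 := log_le_circleAverage hr (analyticOnNhd_G K (by rwa [habs]))
    (by rw [G_zero]; exact_mod_cast hpos.ne')
  rw [G_zero, Complex.norm_real, Real.norm_of_nonneg hpos.le] at h2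
  exact h2

/-- Jensen formula comparison -/
theorem circleAverage_eq {f g : ℂ → ℂ} {r : ℝ} (hr : 0 < r)
    (hf : AnalyticOnNhd ℂ f (closedBall 0 |r|)) (hg : AnalyticOnNhd ℂ g (closedBall 0 |r|))
    (hf0 : f 0 ≠ 0) (hg0 : g 0 ≠ 0)
    (hord : ∀ z ∈ closedBall (0 : ℂ) |r|, analyticOrderAt f z = analyticOrderAt g z) :
    circleAverage (fun z => Real.log ‖g z‖) 0 r - Real.log ‖g 0‖ =
      circleAverage (fun z => Real.log ‖f z‖) 0 r - Real.log ‖f 0‖ := by
  rw [AnalyticOnNhd.circleAverage_log_norm hr.ne' hf hf0,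
    AnalyticOnNhd.circleAverage_log_norm hr.ne' hg hg0, add_sub_cancel_right, add_sub_cancel_right]
  refine finsum_congr fun u => ?_
  by_cases hu : u ∈ closedBall (0 : ℂ) |r|
  · rw [MeromorphicOn.AnalyticOnNhd.divisor_apply hf hu,
      MeromorphicOn.AnalyticOnNhd.divisor_apply hg hu, hord u hu]
  · have h1 : MeromorphicOn.divisor f (closedBall 0 |r|) u = 0 :=
        Function.locallyFinsuppWithin.apply_eq_zero_of_notMem _ hu
    have h2 : MeromorphicOn.divisor g (closedBall 0 |r|) u = 0 :=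
        Function.locallyFinsuppWithin.apply_eq_zero_of_notMem _ hu
    rw [h1, h2]

/-- Jensen inequality on a circle. -/
theorem exp_circleAverage_le {g : ℂ → ℂ} {r : ℝ} (hr : 0 < r)
    (hg : AnalyticOnNhd ℂ g (closedBall 0 |r|)) (hg0 : g 0 ≠ 0) :
    Real.exp (circleAverage (fun z => Real.log ‖g z‖) 0 r) ≤
      circleAverage (fun z => ‖g z‖) 0 r := by
  set c := Real.exp (circleAverage (fun z => Real.log ‖g z‖) 0 r) with hc
  have hcpos : 0 < c := Real.exp_pos _
  have hlogc : Real.log c = circleAverage (fun z => Real.log ‖g z‖) 0 r := Real.log_exp _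
  have hint1 : CircleIntegrable (fun z => Real.log ‖g z‖) 0 r :=
    (hg.mono sphere_subset_closedBall).meromorphicOn.circleIntegrable_log_norm
  have hcont : ContinuousOn (fun z => ‖g z‖) (sphere (0 : ℂ) |r|) :=
    ((hg.mono sphere_subset_closedBall).continuousOn).norm
  have hint2 : CircleIntegrable (fun z => ‖g z‖) 0 r := hcont.circleIntegrable'
  -- a.e. nonvanishing
  have hne : ∀ᵐ θ ∂(volume.restrict (Icc (0 : ℝ) (2 * π))), g (circleMap 0 r θ) ≠ 0 := by
    have h1 : g ⁻¹' {0}ᶜ ∈ codiscreteWithin (closedBall (0 : ℂ) |r|) := by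
      refine hg.preimage_zero_mem_codiscreteWithin (x := 0) hg0 (by simp) ?_
      exact ⟨⟨0, by simp⟩, (convex_closedBall (0 : ℂ) |r|).isPreconnected⟩
    have h2 : g ⁻¹' {0}ᶜ ∈ codiscreteWithin (sphere (0 : ℂ) |r|) :=
      codiscreteWithin_mono sphere_subset_closedBall h1
    have h3 : circleMap 0 r ⁻¹' (g ⁻¹' {0}ᶜ) ∈ codiscreteWithin (univ : Set ℝ) :=
      circleMap_preimage_codiscrete (c := 0) hr.ne' h2
    have h3' : circleMap 0 r ⁻¹' (g ⁻¹' {0}ᶜ) ∈ codiscreteWithin (Icc (0 : ℝ) (2 * π)) :=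
      codiscreteWithin_mono (subset_univ _) h3
    exact ae_restrict_le_codiscreteWithin (μ := (volume : Measure ℝ)) measurableSet_Icc h3'
  have hkey : circleAverage (fun z => c * (1 + (Real.log ‖g z‖ - Real.log c))) 0 r ≤
      circleAverage (fun z => ‖g z‖) 0 r := by
    unfold circleAverage
    rw [smul_eq_mul, smul_eq_mul]
    have hpi : 0 < (2 * π)⁻¹ := by positivity
    refine mul_le_mul_of_nonneg_left ?_ hpi.le
    refine intervalIntegral.integral_mono_ae_restrict (by positivity) ?_ hint2 ?_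
    · have h5 : CircleIntegrable (fun z => c * (1 + (Real.log ‖g z‖ - Real.log c))) 0 r := by
        have h6 : CircleIntegrable (fun z : ℂ => (1 : ℝ)) 0 r := circleIntegrable_const _ _ _
        have h7 : CircleIntegrable (fun z : ℂ => Real.log c) 0 r := circleIntegrable_const _ _ _
        exact (h6.add (hint1.sub h7)).const_mul c
      exact h5
    · filter_upwards [hne] with θ hθ
      have hpos : 0 < ‖g (circleMap 0 r θ)‖ := norm_pos_iff.2 hθ
      have h8 := Real.log_le_sub_one_of_pos (div_pos hpos hcpos)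
      rw [Real.log_div hpos.ne' hcpos.ne'] at h8
      have h9 : c * (1 + (Real.log ‖g (circleMap 0 r θ)‖ - Real.log c)) ≤
          c * (‖g (circleMap 0 r θ)‖ / c) := by
        apply mul_le_mul_of_nonneg_left _ hcpos.le
        linarith
      rwa [mul_div_cancel₀ _ hcpos.ne'] at h9
  have heq : circleAverage (fun z => c * (1 + (Real.log ‖g z‖ - Real.log c))) 0 r = c := by
    have h6 : CircleIntegrable (fun z : ℂ => (1 : ℝ)) 0 r := circleIntegrable_const _ _ _
    have h7 : CircleIntegrable (fun z : ℂ => Real.log c) 0 r := circleIntegrable_const _ _ _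
    have e1 : (fun z => c * (1 + (Real.log ‖g z‖ - Real.log c))) =
        c • ((fun _ => (1 : ℝ)) + ((fun z => Real.log ‖g z‖) - (fun _ => Real.log c))) := by
      ext z; simp
    rw [e1, circleAverage_smul, circleAverage_add h6 (hint1.sub h7),
      circleAverage_sub hint1 h7, circleAverage_const, circleAverage_const, hlogc]
    simp
  linarith

end Pool.Agent.Helper50.Bergman
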