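import Mathlib
import Pool.Agent.Helper50.Bergman2

set_option autoImplicit false

namespace Pool.Agent.Helper50.Bergman

open Complex MeasureTheory Metric Set Filter Topology Real
open scoped ENNReal

/-- polar coordinates on the unit disc -/
theorem lintegral_ball_polar (h : ℂ → ℝ≥0∞) (hh : Measurable h) :
    ∫⁻ z in ball (0 : ℂ) 1, h z =
      ∫⁻ r in Ioo (0 : ℝ) 1, ENNReal.ofReal r * ∫⁻ θ in Ioo (-π) π, h (circleMap 0 r θ) := by
  rw [← lintegral_indicator isOpen_ball.measurableSet,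
    ← Complex.lintegral_comp_polarCoord_symm]
  have hmeas : Measurable fun p : ℝ × ℝ => ENNReal.ofReal p.1 * h (circleMap 0 p.1 p.2) := by
    refine Measurable.mul (ENNReal.measurable_ofReal.comp measurable_fst) (hh.comp ?_)
    unfold circleMap
    fun_prop
  have h1 : ∫⁻ p in polarCoord.target, ENNReal.ofReal p.1 •
      (ball (0 : ℂ) 1).indicator h (Complex.polarCoord.symm p) =
      ∫⁻ p in (Ioo (0 : ℝ) 1) ×ˢ (Ioo (-π) π), ENNReal.ofReal p.1 * h (circleMap 0 p.1 p.2) := by
    rw [polarCoord_target, ← lintegral_indicator (measurableSet_Ioi.prod measurableSet_Ioo),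
      ← lintegral_indicator (measurableSet_Ioo.prod measurableSet_Ioo)]
    refine lintegral_congr fun p => ?_
    by_cases hp : p ∈ (Ioo (0 : ℝ) 1) ×ˢ (Ioo (-π) π)
    · have hp2 : p ∈ (Ioi (0 : ℝ)) ×ˢ (Ioo (-π) π) := ⟨hp.1.1, hp.2⟩
      rw [indicator_of_mem hp, indicator_of_mem hp2, smul_eq_mul]
      congr 1
      have h2 : Complex.polarCoord.symm p = circleMap 0 p.1 p.2 := by
        rw [Complex.polarCoord_symm_apply, circleMap, zero_add, Complex.exp_mul_I]
        push_cast
        rfl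
      rw [h2, indicator_of_mem]
      rw [mem_ball_zero_iff, norm_circleMap_zero, abs_of_pos hp.1.1]
      exact hp.1.2
    · rw [indicator_of_notMem hp]
      by_cases hp2 : p ∈ (Ioi (0 : ℝ)) ×ˢ (Ioo (-π) π)
      · rw [indicator_of_mem hp2, indicator_of_notMem, smul_zero]
        intro hcon
        apply hp
        rw [mem_ball_zero_iff, Complex.norm_polarCoord_symm, abs_of_pos hp2.1] at hcon
        exact ⟨⟨hp2.1, hcon⟩, hp2.2⟩
      · rw [indicator_of_notMem hp2]
  rw [h1, Measure.volume_eq_prod, ← Measure.prod_restrict, lintegral_prod _ hmeas.aemeasurable]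
  refine lintegral_congr fun r => ?_
  simp only
  rw [lintegral_const_mul]
  refine hh.comp ?_
  unfold circleMap
  fun_prop

theorem lintegral_circle_eq (g : ℂ → ℝ) (r : ℝ) (hr : 0 < r) (hg : ContinuousOn g (sphere 0 r))
    (h0 : ∀ z ∈ sphere (0 : ℂ) r, 0 ≤ g z) :
    ∫⁻ θ in Ioo (-π) π, ENNReal.ofReal (g (circleMap 0 r θ)) =
      ENNReal.ofReal (2 * π * circleAverage g 0 r) := by
  have hcont : Continuous fun θ => g (circleMap 0 r θ) := by
    have : ∀ θ, circleMap 0 r θ ∈ sphere (0 : ℂ) r := fun θ => circleMap_mem_sphere 0 hr.le θ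
    exact hg.comp_continuous (continuous_circleMap 0 r) this
  rw [circleAverage_eq_integral_add (-π), smul_eq_mul, mul_inv_cancel_left₀ (by positivity)]
  rw [intervalIntegral.integral_comp_add_right (fun θ => g (circleMap 0 r θ))]
  have e1 : (0 : ℝ) + -π = -π := by ring
  have e2 : 2 * π + -π = π := by ring
  rw [e1, e2, intervalIntegral.integral_of_le (by linarith [Real.pi_pos]),
    integral_Ioc_eq_integral_Ioo, ofReal_integral_eq_lintegral_ofReal]
  · exact (hcont.integrableOn_Icc (a := -π) (b := π)).mono_set Ioo_subset_Icc_self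
  · exact Eventually.of_forall fun θ => h0 _ (circleMap_mem_sphere 0 hr.le θ)

/-- radii -/
noncomputable def rho (k : ℕ) : ℝ := 1 - 1 / (n k : ℝ)

theorem rho_mono : Monotone rho := monotone_nat_of_le_succ fun k => by
  unfold rho
  have h1 : (0 : ℝ) < n k := by exact_mod_cast n_pos k
  have h2 : (n k : ℝ) ≤ n (k + 1) := by exact_mod_cast (n_strictMono (Nat.lt_succ_self k)).le
  have := one_div_le_one_div_of_le h1 h2
  linarith

theorem rho_pos (k : ℕ) : 0 < rho k := by
  have h1 : rho 0 ≤ rho k := rho_mono (Nat.zero_le k)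
  have h2 : rho 0 = 1 / 2 := by unfold rho n A; norm_num
  rw [h2] at h1
  linarith

theorem rho_lt_one (k : ℕ) : rho k < 1 := by
  unfold rho
  have h1 : (0 : ℝ) < n k := by exact_mod_cast n_pos k
  have : 0 < 1 / (n k : ℝ) := by positivity
  linarith

theorem rho_pow (k : ℕ) : (1 : ℝ) / 32 ≤ rho k ^ (2 * n k + 1) := by
  obtain ⟨m, hm⟩ : 2 ∣ n k := Dvd.dvd.mul_left (two_dvd_A k) _
  have hm0 : 0 < m := by have := n_pos k; omega
  have h1 : (1 : ℝ) / 2 ≤ rho k ^ m := by
    have h2 := one_add_mul_le_pow (a := -(1 / (n k : ℝ))) (by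
      have : (1 : ℝ) ≤ n k := by exact_mod_cast n_pos k
      have : 1 / (n k : ℝ) ≤ 1 := by
        rw [div_le_one (by linarith)]; exact this
      linarith) m
    have h3 : (1 : ℝ) + m * -(1 / (n k : ℝ)) = 1 / 2 := by
      rw [hm]; push_cast
      have : (m : ℝ) ≠ 0 := by exact_mod_cast hm0.ne'
      field_simp
      ring
    rw [h3] at h2
    calc (1 : ℝ) / 2 ≤ _ := h2
      _ = rho k ^ m := by unfold rho; ring_nf
  have h4 : (1 : ℝ) / 2 ≤ rho k := by
    have h1 : rho 0 ≤ rho k := rho_mono (Nat.zero_le k)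
    have h2 : rho 0 = 1 / 2 := by unfold rho n A; norm_num
    linarith
  have e : rho k ^ (2 * n k + 1) = (rho k ^ m) ^ 4 * rho k := by
    rw [hm, ← pow_mul, pow_succ]; congr 2; ring
  rw [e]
  calc (1 : ℝ) / 32 = (1 / 2) ^ 4 * (1 / 2) := by norm_num
    _ ≤ _ := by gcongr

theorem length_ge (k : ℕ) : 1 / (2 * (n k : ℝ)) ≤ rho (k + 1) - rho k := by
  unfold rho
  have h1 : (0 : ℝ) < n k := by exact_mod_cast n_pos k
  have h2 : 2 * (n k : ℝ) ≤ n (k + 1) := by exact_mod_cast two_mul_n_le k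
  have h3 := one_div_le_one_div_of_le (by positivity) h2
  have h4 : 1 / (2 * (n k : ℝ)) = 1 / n k - 1 / (2 * n k) := by field_simp; ring
  linarith

/-- the main lower bound -/
theorem not_in_A1 (g : ℂ → ℂ) (hg : DifferentiableOn ℂ g (ball (0 : ℂ) 1))
    (hord : ∀ z ∈ ball (0 : ℂ) 1, analyticOrderAt g z = analyticOrderAt (T 0) z) :
    ∫⁻ z in ball (0 : ℂ) 1, ENNReal.ofReal ‖g z‖ = ⊤ := by
  classical
  have hga : AnalyticOnNhd ℂ g (ball 0 1) := hg.analyticOnNhd isOpen_ball
  have hTa : AnalyticOnNhd ℂ (T 0) (ball 0 1) := (differentiableOn_T 0).analyticOnNhd isOpen_ball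
  have h0mem : (0 : ℂ) ∈ ball (0 : ℂ) 1 := by simp
  have hT0 : T 0 0 ≠ 0 := by rw [T_zero]; exact one_ne_zero
  have hg0 : g 0 ≠ 0 := by
    have h1 : analyticOrderAt (T 0) 0 = 0 := (hTa 0 h0mem).analyticOrderAt_eq_zero.2 hT0
    have h2 := hord 0 h0mem
    rw [h1] at h2
    exact (hga 0 h0mem).analyticOrderAt_eq_zero.1 h2
  set c : ℝ := ‖g 0‖ with hc
  have hcpos : 0 < c := norm_pos_iff.2 hg0
  -- measurable version
  set h : ℂ → ℝ≥0∞ := (ball (0 : ℂ) 1).indicator fun z => ENNReal.ofReal ‖g z‖ with hh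
  have hmeas : Measurable h := by
    have h1 : Measurable ((ball (0 : ℂ) 1).piecewise g (fun _ => 0)) :=
      ContinuousOn.measurable_piecewise hg.continuousOn continuousOn_const
        isOpen_ball.measurableSet
    have h2 : h = fun z => ENNReal.ofReal ‖(ball (0 : ℂ) 1).piecewise g (fun _ => 0) z‖ := by
      ext z
      by_cases hz : z ∈ ball (0 : ℂ) 1
      · simp only [hh]; rw [indicator_of_mem hz, piecewise_eq_of_mem _ _ _ hz]
      · simp only [hh]; rw [indicator_of_notMem hz, piecewise_eq_of_notMem _ _ _ hz]; simp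
    rw [h2]
    exact ENNReal.measurable_ofReal.comp h1.norm
  have e0 : ∫⁻ z in ball (0 : ℂ) 1, ENNReal.ofReal ‖g z‖ = ∫⁻ z in ball (0 : ℂ) 1, h z := by
    refine setLIntegral_congr_fun isOpen_ball.measurableSet fun z hz => ?_
    simp only [hh]; rw [indicator_of_mem hz]
  rw [e0, lintegral_ball_polar h hmeas]
  -- lower bound for each radius
  have hlow : ∀ k : ℕ, ∀ r ∈ Ico (rho k) (rho (k + 1)),
      ENNReal.ofReal (2 * π * c * ((A k : ℝ) / 32)) ≤
        ENNReal.ofReal r * ∫⁻ θ in Ioo (-π) π, h (circleMap 0 r θ) := by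
    intro k r hr
    have hr0 : 0 < r := (rho_pos k).trans_le hr.1
    have hr1 : r < 1 := hr.2.trans (rho_lt_one _)
    have habs : |r| = r := abs_of_pos hr0
    have e1 : ∫⁻ θ in Ioo (-π) π, h (circleMap 0 r θ) =
        ∫⁻ θ in Ioo (-π) π, ENNReal.ofReal ((fun z => ‖g z‖) (circleMap 0 r θ)) := by
      refine lintegral_congr fun θ => ?_
      have : circleMap 0 r θ ∈ ball (0 : ℂ) 1 := by
        rw [mem_ball_zero_iff, norm_circleMap_zero, habs]; exact hr1
      simp only [hh]; rw [indicator_of_mem this]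
    have hsub : closedBall (0 : ℂ) |r| ⊆ ball 0 1 := closedBall_subset_ball (by rwa [habs])
    have hsub2 : sphere (0 : ℂ) r ⊆ ball 0 1 := by
      rw [← habs]; exact sphere_subset_closedBall.trans hsub
    rw [e1, lintegral_circle_eq _ r hr0 ((hg.continuousOn.mono hsub2).norm)
      (fun z _ => norm_nonneg _), ← ENNReal.ofReal_mul hr0.le]
    apply ENNReal.ofReal_le_ofReal
    have h1 := exp_circleAverage_le hr0 (hga.mono hsub) hg0
    have h2 := circleAverage_eq hr0 (hTa.mono hsub) (hga.mono hsub) hT0 hg0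
      (fun z hz => (hord z (hsub hz)).symm)
    rw [T_zero, norm_one, Real.log_one, sub_zero] at h2
    have h3 := log_le_circleAverage_T (k + 1) hr0 hr1
    have hP : ∏ j ∈ Finset.range (k + 1), ((2 : ℝ) ^ (j + 1) * r ^ (n j)) =
        A k * r ^ (∑ j ∈ Finset.range (k + 1), n j) := by
      rw [Finset.prod_mul_distrib, ← A_cast, Finset.prod_pow_eq_pow_sum]
    have hAk : (0 : ℝ) < A k := by exact_mod_cast A_pos k
    have h4 : (A k : ℝ) * r ^ (2 * n k) ≤
        ∏ j ∈ Finset.range (k + 1), ((2 : ℝ) ^ (j + 1) * r ^ (n j)) := by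
      rw [hP]
      apply mul_le_mul_of_nonneg_left _ hAk.le
      exact pow_le_pow_of_le_one hr0.le hr1.le (sum_n_le k)
    have h5 : Real.log ((A k : ℝ) * r ^ (2 * n k)) ≤
        circleAverage (fun z => Real.log ‖T 0 z‖) 0 r :=
      (Real.log_le_log (by positivity) h4).trans h3
    have h6 : c * ((A k : ℝ) * r ^ (2 * n k)) ≤ circleAverage (fun z => ‖g z‖) 0 r := by
      refine le_trans ?_ h1
      have h7 : circleAverage (fun z => Real.log ‖g z‖) 0 r =
          Real.log ‖g 0‖ + circleAverage (fun z => Real.log ‖T 0 z‖) 0 r := by linarith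
      rw [h7, Real.exp_add, Real.exp_log hcpos]
      apply mul_le_mul_of_nonneg_left _ hcpos.le
      rw [← Real.log_le_iff_le_exp (by positivity)]
      exact h5
    have h8 : (1 : ℝ) / 32 ≤ r ^ (2 * n k + 1) :=
      (rho_pow k).trans (pow_le_pow_left₀ (rho_pos k).le hr.1 _)
    calc 2 * π * c * ((A k : ℝ) / 32) = 2 * π * c * A k * (1 / 32) := by ring
      _ ≤ 2 * π * c * A k * r ^ (2 * n k + 1) := by gcongr
      _ = r * (2 * π * (c * ((A k : ℝ) * r ^ (2 * n k)))) := by ring
      _ ≤ _ := by gcongr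
  -- disjoint union
  have hdisj : Pairwise (Function.onFun Disjoint fun k => Ico (rho k) (rho (k + 1))) :=
    rho_mono.pairwise_disjoint_on_Ico_succ
  have hsub : (⋃ k, Ico (rho k) (rho (k + 1))) ⊆ Ioo (0 : ℝ) 1 := by
    refine iUnion_subset fun k r hr => ?_
    exact ⟨(rho_pos k).trans_le hr.1, hr.2.trans (rho_lt_one _)⟩
  rw [eq_top_iff]
  calc (⊤ : ℝ≥0∞) = ∑' k : ℕ, ENNReal.ofReal (2 * π * c / 64 * (1 / ((k : ℝ) + 1))) := by
        symm
        by_contra hne
        have h1 := ENNReal.summable_toReal hne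
        have h2 : Summable fun k : ℕ => 2 * π * c / 64 * (1 / ((k : ℝ) + 1)) := by
          refine h1.congr fun k => ?_
          rw [ENNReal.toReal_ofReal (by positivity)]
        have h3 : Summable fun k : ℕ => (1 / ((k : ℝ) + 1)) :=
          (summable_mul_left_iff (by positivity)).1 h2
        have h4 : Summable fun k : ℕ => (1 / ((k : ℝ))) := by
          rw [← summable_nat_add_iff 1]
          exact h3.congr fun k => by push_cast; rfl
        exact Real.not_summable_one_div_natCast h4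
    _ ≤ ∑' k : ℕ, ∫⁻ r in Ico (rho k) (rho (k + 1)),
          ENNReal.ofReal r * ∫⁻ θ in Ioo (-π) π, h (circleMap 0 r θ) := by
        refine ENNReal.tsum_le_tsum fun k => ?_
        calc ENNReal.ofReal (2 * π * c / 64 * (1 / ((k : ℝ) + 1)))
            ≤ ENNReal.ofReal (2 * π * c * ((A k : ℝ) / 32)) *
              volume (Ico (rho k) (rho (k + 1))) := by
              rw [Real.volume_Ico, ← ENNReal.ofReal_mul (by positivity)]
              apply ENNReal.ofReal_le_ofReal
              have h1 := length_ge k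
              have hAk : (0 : ℝ) < A k := by exact_mod_cast A_pos k
              have hn : (n k : ℝ) = ((k : ℝ) + 1) * A k := by unfold n; push_cast; ring
              calc 2 * π * c / 64 * (1 / ((k : ℝ) + 1)) =
                  2 * π * c * ((A k : ℝ) / 32) * (1 / (2 * (n k : ℝ))) := by
                    rw [hn]; field_simp; ring
                _ ≤ _ := by gcongr
          _ = ∫⁻ r in Ico (rho k) (rho (k + 1)),
                ENNReal.ofReal (2 * π * c * ((A k : ℝ) / 32)) := by
              rw [setLIntegral_const]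
          _ ≤ _ := setLIntegral_mono' measurableSet_Ico (hlow k)
    _ = ∫⁻ r in ⋃ k, Ico (rho k) (rho (k + 1)),
          ENNReal.ofReal r * ∫⁻ θ in Ioo (-π) π, h (circleMap 0 r θ) := by
        rw [lintegral_iUnion (fun k => measurableSet_Ico) hdisj]
    _ ≤ _ := lintegral_mono_set hsub

/-- one radial integral -/
theorem lintegral_radial (m : ℕ) (c : ℝ) (hc : 0 ≤ c) :
    ∫⁻ z in ball (0 : ℂ) 1, ENNReal.ofReal (c * ‖z‖ ^ m * (1 - ‖z‖)) ≤
      ENNReal.ofReal (2 * π * c * (1 / (m + 1) - 1 / (m + 2))) := by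
  rw [lintegral_ball_polar (fun z => ENNReal.ofReal (c * ‖z‖ ^ m * (1 - ‖z‖))) (by fun_prop)]
  have hcont : Continuous fun r : ℝ => 2 * π * c * (r ^ m - r ^ (m + 1)) := by fun_prop
  have e1 : ∀ r ∈ Ioo (0 : ℝ) 1, ENNReal.ofReal r *
      ∫⁻ θ in Ioo (-π) π, ENNReal.ofReal (c * ‖circleMap 0 r θ‖ ^ m * (1 - ‖circleMap 0 r θ‖)) ≤
      ENNReal.ofReal (2 * π * c * (r ^ m - r ^ (m + 1))) := by
    intro r hr
    have e2 : ∀ θ : ℝ, ENNReal.ofReal (c * ‖circleMap 0 r θ‖ ^ m * (1 - ‖circleMap 0 r θ‖)) =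
        ENNReal.ofReal (c * r ^ m * (1 - r)) := by
      intro θ
      rw [norm_circleMap_zero, abs_of_pos hr.1]
    simp_rw [e2]
    rw [setLIntegral_const, Real.volume_Ioo]
    have h1 : 0 ≤ c * r ^ m * (1 - r) := by
      have := hr.1.le; have : 0 ≤ 1 - r := by linarith [hr.2]
      positivity
    rw [← ENNReal.ofReal_mul h1, ← ENNReal.ofReal_mul hr.1.le]
    apply ENNReal.ofReal_le_ofReal
    have h2 : r * (c * r ^ m * (1 - r) * (π - -π)) = r * (2 * π * c * (r ^ m - r ^ (m + 1))) := by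
      ring
    rw [h2]
    have h3 : 0 ≤ 2 * π * c * (r ^ m - r ^ (m + 1)) := by
      have : r ^ m - r ^ (m + 1) = r ^ m * (1 - r) := by ring
      rw [this]
      have := hr.1.le; have : 0 ≤ 1 - r := by linarith [hr.2]
      positivity
    nlinarith [hr.2]
  refine (setLIntegral_mono' measurableSet_Ioo e1).trans ?_
  rw [← ofReal_integral_eq_lintegral_ofReal]
  · apply ENNReal.ofReal_le_ofReal
    rw [← integral_Ioc_eq_integral_Ioo, ← intervalIntegral.integral_of_le zero_le_one,
      intervalIntegral.integral_const_mul, intervalIntegral.integral_sub, integral_pow,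
      integral_pow]
    · simp only [one_pow, ne_eq, Nat.add_eq_zero_iff, one_ne_zero, and_false, not_false_eq_true,
        zero_pow, sub_zero]
      push_cast
      have : (m : ℝ) + 1 + 1 = m + 2 := by ring
      rw [this]
    · exact (continuous_pow m).intervalIntegrable _ _
    · exact (continuous_pow (m + 1)).intervalIntegrable _ _
  · exact (hcont.integrableOn_Icc (a := 0) (b := 1)).mono_set Ioo_subset_Icc_self
  · refine (ae_restrict_mem measurableSet_Ioo).mono fun r hr => ?_
    have : r ^ m - r ^ (m + 1) = r ^ m * (1 - r) := by ring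
    simp only [Pi.zero_apply]
    rw [this]
    have := hr.1.le; have : 0 ≤ 1 - r := by linarith [hr.2]
    positivity

/-- `T 0` is in the space with `q = 2`, `β = 1`. -/
theorem in_A2 : ∫⁻ z in ball (0 : ℂ) 1, ENNReal.ofReal (‖T 0 z‖ ^ 2 * (1 - ‖z‖)) < ⊤ := by
  have h1 : ∀ z ∈ ball (0 : ℂ) 1, ENNReal.ofReal (‖T 0 z‖ ^ 2 * (1 - ‖z‖)) ≤
      2 + ∑' k, ENNReal.ofReal (72 * (A k : ℝ) ^ 2 * ‖z‖ ^ (n k) * (1 - ‖z‖)) := by
    intro z hz
    rw [mem_ball_zero_iff] at hz
    have hsum := summable_A_sq (norm_nonneg z) hz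
    have h2 := norm_T_sq_le hz
    have h3 : 0 ≤ 1 - ‖z‖ := by linarith
    have h4 : 0 ≤ ∑' k, (A k : ℝ) ^ 2 * ‖z‖ ^ (n k) := tsum_nonneg fun k => by positivity
    calc ENNReal.ofReal (‖T 0 z‖ ^ 2 * (1 - ‖z‖))
        ≤ ENNReal.ofReal (2 + ∑' k, 72 * (A k : ℝ) ^ 2 * ‖z‖ ^ (n k) * (1 - ‖z‖)) := by
          apply ENNReal.ofReal_le_ofReal
          have e : ∑' k, 72 * (A k : ℝ) ^ 2 * ‖z‖ ^ (n k) * (1 - ‖z‖) =
              72 * (∑' k, (A k : ℝ) ^ 2 * ‖z‖ ^ (n k)) * (1 - ‖z‖) := by
            rw [tsum_mul_right, ← tsum_mul_left]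
            congr 2
            ext k; ring
          rw [e]
          calc ‖T 0 z‖ ^ 2 * (1 - ‖z‖) ≤
              (2 + 72 * ∑' k, (A k : ℝ) ^ 2 * ‖z‖ ^ (n k)) * (1 - ‖z‖) := by gcongr
            _ ≤ _ := by
              have := norm_nonneg z
              nlinarith
      _ = 2 + ∑' k, ENNReal.ofReal (72 * (A k : ℝ) ^ 2 * ‖z‖ ^ (n k) * (1 - ‖z‖)) := by
          rw [ENNReal.ofReal_add (by norm_num)]
          · congr 1
            · simp
            · rw [ENNReal.ofReal_tsum_of_nonneg (fun k => by positivity)]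
              have := (hsum.mul_left 72).mul_right (1 - ‖z‖)
              refine this.congr fun k => ?_
              ring
          · exact tsum_nonneg fun k => by positivity
  calc ∫⁻ z in ball (0 : ℂ) 1, ENNReal.ofReal (‖T 0 z‖ ^ 2 * (1 - ‖z‖))
      ≤ ∫⁻ z in ball (0 : ℂ) 1,
        (2 + ∑' k, ENNReal.ofReal (72 * (A k : ℝ) ^ 2 * ‖z‖ ^ (n k) * (1 - ‖z‖))) :=
        setLIntegral_mono' isOpen_ball.measurableSet h1
    _ = 2 * volume (ball (0 : ℂ) 1) + ∑' k, ∫⁻ z in ball (0 : ℂ) 1,
          ENNReal.ofReal (72 * (A k : ℝ) ^ 2 * ‖z‖ ^ (n k) * (1 - ‖z‖)) := by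
        rw [lintegral_add_left measurable_const, setLIntegral_const, lintegral_tsum]
        intro k
        fun_prop
    _ ≤ 2 * volume (ball (0 : ℂ) 1) + ∑' k : ℕ, ENNReal.ofReal (144 * π * (1 / ((k : ℝ) + 1) ^ 2)) := by
        gcongr with k
        refine (lintegral_radial (n k) (72 * (A k : ℝ) ^ 2) (by positivity)).trans ?_
        apply ENNReal.ofReal_le_ofReal
        have hAk : (0 : ℝ) < A k := by exact_mod_cast A_pos k
        have hn : (n k : ℝ) = ((k : ℝ) + 1) * A k := by unfold n; push_cast; ring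
        have hn0 : (0 : ℝ) < n k := by exact_mod_cast n_pos k
        have h5 : 1 / ((n k : ℝ) + 1) - 1 / ((n k : ℝ) + 2) ≤ 1 / (n k : ℝ) ^ 2 := by
          have e : 1 / ((n k : ℝ) + 1) - 1 / ((n k : ℝ) + 2) =
            1 / (((n k : ℝ) + 1) * ((n k : ℝ) + 2)) := by field_simp; ring
          rw [e]
          apply one_div_le_one_div_of_le (by positivity)
          nlinarith
        calc 2 * π * (72 * (A k : ℝ) ^ 2) * (1 / ((n k : ℝ) + 1) - 1 / ((n k : ℝ) + 2))
            ≤ 2 * π * (72 * (A k : ℝ) ^ 2) * (1 / (n k : ℝ) ^ 2) := by gcongr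
          _ = 144 * π * (1 / ((k : ℝ) + 1) ^ 2) := by rw [hn]; field_simp; ring
    _ < ⊤ := by
        apply ENNReal.add_lt_top.2
        constructor
        · exact ENNReal.mul_lt_top (by simp) measure_ball_lt_top
        · rw [← ENNReal.ofReal_tsum_of_nonneg (fun k => by positivity)]
          · exact ENNReal.ofReal_lt_top
          · apply Summable.mul_left
            have h6 : Summable fun k : ℕ => (1 / ((k : ℝ)) ^ 2) :=
              Real.summable_one_div_nat_pow.2 (by norm_num)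
            have h7 := (summable_nat_add_iff 1).2 h6
            exact h7.congr fun k => by push_cast; rfl

end Pool.Agent.Helper50.Bergman
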