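import Mathlib

set_option autoImplicit false

namespace Pool.Agent.Helper50.Bisym

universe u

variable {X : Type u} [LinearOrder X]

/-- A reflexive, bisymmetric binary operation that is strictly increasing in each variable. -/
structure IsMean (m : X → X → X) : Prop where
  idem : ∀ x, m x x = x
  med : ∀ x y z w, m (m x y) (m z w) = m (m x z) (m y w)
  ltr : ∀ x y z, x < y → m x z < m y z
  ltl : ∀ x y z, x < y → m z x < m z y

namespace IsMean

variable {m : X → X → X} (h : IsMean m)
include h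

theorem ler {x y : X} (z : X) (hxy : x ≤ y) : m x z ≤ m y z := by
  rcases hxy.lt_or_eq with h1 | h1
  · exact (h.ltr _ _ z h1).le
  · rw [h1]

theorem lel {x y : X} (z : X) (hxy : x ≤ y) : m z x ≤ m z y := by
  rcases hxy.lt_or_eq with h1 | h1
  · exact (h.ltl _ _ z h1).le
  · rw [h1]

theorem le_of_ler {x y : X} (z : X) (hxy : m x z ≤ m y z) : x ≤ y := by
  by_contra hc
  exact absurd hxy (not_le.2 (h.ltr _ _ z (not_le.1 hc)))

theorem le_of_lel {x y : X} (z : X) (hxy : m z x ≤ m z y) : x ≤ y := by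
  by_contra hc
  exact absurd hxy (not_le.2 (h.ltl _ _ z (not_le.1 hc)))

theorem lt_of_ltr {x y : X} (z : X) (hxy : m x z < m y z) : x < y := by
  by_contra hc
  exact absurd hxy (not_lt.2 (h.ler z (not_lt.1 hc)))

theorem lt_of_ltl {x y : X} (z : X) (hxy : m z x < m z y) : x < y := by
  by_contra hc
  exact absurd hxy (not_lt.2 (h.lel z (not_lt.1 hc)))

theorem distr (x y z : X) : m (m x y) z = m (m x z) (m y z) := by
  conv_lhs => rw [← h.idem z]
  rw [h.med]

theorem distl (x y z : X) : m z (m x y) = m (m z x) (m z y) := by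
  conv_lhs => rw [← h.idem z]
  rw [h.med]

theorem lt_left {x y : X} (hxy : x < y) : x < m x y := by
  have := h.ltl x y x hxy
  rwa [h.idem] at this

theorem lt_right {x y : X} (hxy : x < y) : m x y < y := by
  have := h.ltr x y y hxy
  rwa [h.idem] at this

theorem lt_right' {x y : X} (hxy : x < y) : m y x < y := by
  have := h.ltl x y y hxy
  rwa [h.idem] at this

/-- the endomorphism `z ↦ (a ∘ z) ∘ a` -/
theorem E_alt (a z : X) : m (m a z) a = m a (m z a) := by
  have := h.med a z a a
  rwa [h.idem] at this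

end IsMean

/-- the endomorphism `z ↦ (a ∘ z) ∘ a` -/
def E (m : X → X → X) (a z : X) : X := m (m a z) a

/-- the scale elements -/
def Q (m : X → X → X) (a b : X) (k : ℕ) : X := (E m a)^[k] b

omit [LinearOrder X] in
theorem Q_zero (m : X → X → X) (a b : X) : Q m a b 0 = b := rfl

omit [LinearOrder X] in
theorem Q_succ (m : X → X → X) (a b : X) (k : ℕ) :
    Q m a b (k + 1) = m (m a (Q m a b k)) a := by
  unfold Q
  rw [Function.iterate_succ_apply']
  rfl

section

variable {m : X → X → X} (h : IsMean m) {a b : X} (ha : ∀ x, a ≤ x) (hb : ∀ x, x ≤ b)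
  (hab : a < b)
include h

theorem Q_pos (hab : a < b) (k : ℕ) : a < Q m a b k := by
  induction k with
  | zero => exact hab
  | succ k ih =>
    rw [Q_succ]
    calc a = m (m a a) a := by rw [h.idem, h.idem]
      _ < _ := h.ltr _ _ _ (h.ltl _ _ _ ih)

theorem Q_lt (hab : a < b) (k : ℕ) : Q m a b (k + 1) < Q m a b k := by
  rw [Q_succ]
  have hp := Q_pos h hab k
  calc m (m a (Q m a b k)) a < m (m a (Q m a b k)) (Q m a b k) := h.ltl _ _ _ hp
    _ < m (Q m a b k) (Q m a b k) := h.ltr _ _ _ (h.lt_right hp)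
    _ = _ := h.idem _

/-- Near-ness at scale `k`. -/
def C (m : X → X → X) (a b : X) (k : ℕ) (x y : X) : Prop := m y a < m x (Q m a b k)

theorem C_of_succ (hab : a < b) {k : ℕ} {x y : X} (hc : C m a b (k + 1) x y) : C m a b k x y :=
  hc.trans (h.ltl _ _ _ (Q_lt h hab k))

/-- the key transitivity lemma -/
theorem C_trans (hab : a < b) {k : ℕ} {x y z : X} (h1 : C m a b (k + 1) x y)
    (h2 : C m a b (k + 1) y z) : C m a b k x z := by
  unfold C at *
  by_contra hcon
  rw [not_lt] at hcon
  have hp := Q_pos h hab k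
  rw [Q_succ] at h1 h2
  set c := Q m a b k with hc
  set e := m (m a c) a with he
  have he2 : e = m a (m c a) := h.E_alt a c
  have s1 : m (m x c) a < m (m y e) a := h.ltr _ _ _ (lt_of_le_of_lt hcon h2)
  have s2 : m (m y e) a = m (m y a) (m e a) := h.distr _ _ _
  have s3 : m (m y a) (m e a) < m (m x e) (m e a) := h.ltr _ _ _ h1
  have s4 : m (m x e) (m e a) ≤ m (m x c) a := by
    have t1 : m (m x c) a = m (m x a) (m c a) := h.distr _ _ _
    have t2 : m (m a c) (m c a) ≤ c := by
      calc m (m a c) (m c a) ≤ m (m c c) (m c a) := h.ler _ (h.ler _ hp.le)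
        _ ≤ m (m c c) (m c c) := h.lel _ (h.lel _ hp.le)
        _ = c := by rw [h.idem, h.idem]
    have t3 : m (m (m a c) (m c a)) a ≤ m c a := h.ler _ t2
    have t4 : m (m (m a c) (m c a)) a = m e (m (m c a) a) := h.distr _ _ _
    have t5 : m (m x a) (m e (m (m c a) a)) = m (m x e) (m a (m (m c a) a)) := h.med _ _ _ _
    have t6 : m a (m (m c a) a) = m e a := by
      rw [h.distl (m c a) a a, h.idem, ← he2]
    rw [t1, ← t6, ← t5, ← t4]
    exact h.lel _ t3
  exact absurd (s1.trans (s2 ▸ s3)) (not_lt.2 s4)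

theorem C_mul_right {k : ℕ} {x y : X} (z : X) (ha : ∀ x, a ≤ x) (hc : C m a b k x y) :
    C m a b k (m x z) (m y z) := by
  unfold C at *
  rw [h.distr y z a]
  calc m (m y a) (m z a) < m (m x (Q m a b k)) (m z a) := h.ltr _ _ _ hc
    _ = m (m x z) (m (Q m a b k) a) := h.med _ _ _ _
    _ ≤ m (m x z) (m (Q m a b k) (Q m a b k)) := h.lel _ (h.lel _ (ha _))
    _ = _ := by rw [h.idem (Q m a b k)]

theorem C_mul_left {k : ℕ} {x y : X} (z : X) (ha : ∀ x, a ≤ x) (hc : C m a b k x y) :
    C m a b k (m z x) (m z y) := by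
  unfold C at *
  rw [h.distr z y a]
  calc m (m z a) (m y a) < m (m z a) (m x (Q m a b k)) := h.ltl _ _ _ hc
    _ = m (m z x) (m a (Q m a b k)) := h.med _ _ _ _
    _ ≤ m (m z x) (m (Q m a b k) (Q m a b k)) := h.lel _ (h.ler _ (ha _))
    _ = _ := by rw [h.idem (Q m a b k)]

theorem C_cancel_right {k : ℕ} {x y z : X} (ha : ∀ x, a ≤ x)
    (hc : C m a b (k + 1) (m x z) (m y z)) : C m a b k x y := by
  unfold C at *
  rw [h.distr y z a, Q_succ, h.med x z] at hc
  have h1 := h.lt_of_ltr _ hc
  refine lt_of_lt_of_le h1 (h.lel _ ?_)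
  calc m a (Q m a b k) ≤ m (Q m a b k) (Q m a b k) := h.ler _ (ha _)
    _ = _ := h.idem _

theorem C_cancel_left {k : ℕ} {x y z : X} (ha : ∀ x, a ≤ x)
    (hc : C m a b (k + 1) (m z x) (m z y)) : C m a b k x y := by
  unfold C at *
  rw [h.distr z y a, Q_succ, h.E_alt, h.med z x] at hc
  have h1 := h.lt_of_ltl _ hc
  refine lt_of_lt_of_le h1 (h.lel _ ?_)
  calc m (Q m a b k) a ≤ m (Q m a b k) (Q m a b k) := h.lel _ (ha _)
    _ = _ := h.idem _

omit h in
/-- Infinitesimal closeness (one-sided). -/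
def N (m : X → X → X) (a b : X) (x y : X) : Prop := ∀ k, C m a b k x y

omit h in
theorem N_mono {x y x' y' : X} (h : IsMean m) (hx : x ≤ x') (hy : y' ≤ y) (hn : N m a b x y) :
    N m a b x' y' := fun k =>
  lt_of_le_of_lt (h.ler _ hy) (lt_of_lt_of_le (hn k) (h.ler _ hx))

theorem N_cancel_right {x y z : X} (ha : ∀ x, a ≤ x)
    (hc : N m a b (m x z) (m y z)) : N m a b x y := fun k => C_cancel_right h ha (hc (k + 1))

theorem N_cancel_left {x y z : X} (ha : ∀ x, a ≤ x)
    (hc : N m a b (m z x) (m z y)) : N m a b x y := fun k => C_cancel_left h ha (hc (k + 1))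

theorem N_mul_right {x y : X} (z : X) (ha : ∀ x, a ≤ x) (hc : N m a b x y) :
    N m a b (m x z) (m y z) := fun k => C_mul_right h z ha (hc k)

theorem N_mul_left {x y : X} (z : X) (ha : ∀ x, a ≤ x) (hc : N m a b x y) :
    N m a b (m z x) (m z y) := fun k => C_mul_left h z ha (hc k)

theorem N_trans (hab : a < b) {x y z : X} (h1 : N m a b x y) (h2 : N m a b y z) : N m a b x z :=
  fun k => C_trans h hab (h1 (k + 1)) (h2 (k + 1))

theorem N_of_le (hab : a < b) {x y : X} (hxy : y ≤ x) : N m a b x y := fun k =>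
  lt_of_le_of_lt (h.ler _ hxy) (h.ltl _ _ _ (Q_pos h hab k))

/-- endpoints are not infinitely close -/
theorem not_N (hab : a < b) : ¬ N m a b a b := by
  intro hn
  have h1 := hn 1
  unfold C at h1
  rw [Q_succ, Q_zero, h.distl] at h1
  rw [h.idem] at h1
  have h2 : m (m a (m a b)) a < m b a := by
    apply h.ltr
    exact (h.ltl _ _ a (h.lt_right hab)).trans (h.lt_right hab)
  exact absurd h1 (not_lt.2 h2.le)

theorem not_N_left (ha : ∀ x, a ≤ x) {u v : X} (hn : ¬ N m a b u v) : ¬ N m a b u (m u v) := by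
  intro hc
  apply hn
  have h1 : N m a b (m u u) (m u v) := by rwa [h.idem]
  exact N_cancel_left h ha h1

theorem not_N_right (ha : ∀ x, a ≤ x) {u v : X} (hn : ¬ N m a b u v) : ¬ N m a b (m u v) v := by
  intro hc
  apply hn
  have h1 : N m a b (m u v) (m v v) := by rwa [h.idem v]
  exact N_cancel_right h ha h1

end

section nested

variable {m : X → X → X} (h : IsMean m) {a b : X} (ha : ∀ x, a ≤ x) (hb : ∀ x, x ≤ b)
  (hab : a < b)

/-- one step of the nested interval construction -/
def step (m : X → X → X) (c : X) (p : X × X) : X × X :=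
  if m p.1 p.2 ≤ c then (p.1, m p.1 (m p.1 p.2)) else (m (m p.1 p.2) p.2, p.2)

/-- the nested intervals -/
def seq (m : X → X → X) (a b : X) (c : ℕ → X) : ℕ → X × X
  | 0 => (a, b)
  | n + 1 => step m (c n) (seq m a b c n)

include h in
theorem step_spec (ha : ∀ x, a ≤ x) (c : X) (p : X × X) (hlt : p.1 < p.2)
    (hn : ¬ N m a b p.1 p.2) :
    p.1 ≤ (step m c p).1 ∧ (step m c p).1 < (step m c p).2 ∧ (step m c p).2 ≤ p.2 ∧
      ¬ N m a b (step m c p).1 (step m c p).2 ∧
      ∀ x, (step m c p).1 ≤ x → x ≤ (step m c p).2 → ¬ (N m a b x c ∧ N m a b c x) := by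
  obtain ⟨u, v⟩ := p
  simp only at hlt hn
  have hw1 : u < m u v := h.lt_left hlt
  have hw2 : m u v < v := h.lt_right hlt
  have hn1 : ¬ N m a b u (m u v) := not_N_left h ha hn
  have hn2 : ¬ N m a b (m u v) v := not_N_right h ha hn
  unfold step
  simp only
  split_ifs with hc
  · refine ⟨le_refl _, h.lt_left hw1, ((h.lt_right hw1).trans hw2).le, not_N_left h ha hn1, ?_⟩
    intro x hx1 hx2 hx3
    simp only at hx1 hx2
    -- x ≤ u∘w < w ≤ c
    exact not_N_right h ha hn1 (N_mono h hx2 hc hx3.1)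
  · refine ⟨(hw1.trans (h.lt_left hw2)).le, h.lt_right hw2, le_refl _, not_N_right h ha hn2, ?_⟩
    intro x hx1 hx2 hx3
    simp only at hx1 hx2
    rw [not_le] at hc
    exact not_N_left h ha hn2 (N_mono h hc.le hx1 hx3.2)

include h in
theorem seq_spec (ha : ∀ x, a ≤ x) (hab : a < b) (c : ℕ → X) (n : ℕ) :
    (seq m a b c n).1 < (seq m a b c n).2 ∧ ¬ N m a b (seq m a b c n).1 (seq m a b c n).2 := by
  induction n with
  | zero => exact ⟨hab, not_N h hab⟩
  | succ n ih =>
    have := step_spec h ha (c n) (seq m a b c n) ih.1 ih.2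
    exact ⟨this.2.1, this.2.2.2.1⟩

include h in
/-- No countable family of classes covers. -/
theorem exists_not_close (ha : ∀ x, a ≤ x) (hab : a < b)
    (hnest : ∀ u v : ℕ → X, Monotone u → Antitone v → (∀ n, u n ≤ v n) →
      ∃ x, ∀ n, u n ≤ x ∧ x ≤ v n)
    (c : ℕ → X) : ∃ x, ∀ n, ¬ (N m a b x (c n) ∧ N m a b (c n) x) := by
  have hs := fun n => step_spec h ha (c n) (seq m a b c n) (seq_spec h ha hab c n).1
    (seq_spec h ha hab c n).2
  obtain ⟨x, hx⟩ := hnest (fun n => (seq m a b c n).1) (fun n => (seq m a b c n).2)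
    (monotone_nat_of_le_succ fun n => (hs n).1)
    (antitone_nat_of_succ_le fun n => (hs n).2.2.1)
    (fun n => (seq_spec h ha hab c n).1.le)
  refine ⟨x, fun n => ?_⟩
  exact (hs n).2.2.2.2 x (hx (n + 1)).1 (hx (n + 1)).2

include h in
/-- Theorem A: no infinitesimal pairs. -/
theorem theoremA (ha : ∀ x, a ≤ x) (hab : a < b)
    (hnest : ∀ u v : ℕ → X, Monotone u → Antitone v → (∀ n, u n ≤ v n) →
      ∃ x, ∀ n, u n ≤ x ∧ x ≤ v n)
    (hsep : ∃ d : ℕ → X, ∀ x y, x < y → ∃ n, x < d n ∧ d n < y)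
    {p q : X} (hpq : p < q) : ∃ k, m p (Q m a b k) ≤ m q a := by
  by_contra hcon
  push Not at hcon
  have hN : N m a b p q := fun k => hcon k
  obtain ⟨d, hd⟩ := hsep
  have hr : ∀ x, ∃ n, m x p < d n ∧ d n < m x q := fun x => hd _ _ (h.ltl _ _ _ hpq)
  choose r hr1 hr2 using hr
  classical
  -- representatives
  let c : ℕ → X := fun n => if hx : ∃ x, r x = n then hx.choose else a
  have hc : ∀ x, r (c (r x)) = r x := by
    intro x
    have hx : ∃ y, r y = r x := ⟨x, rfl⟩
    simp only [c, dif_pos hx]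
    exact hx.choose_spec
  have hclose : ∀ x y, r x = r y → N m a b x y := by
    intro x y hxy
    have h1 : N m a b (m x p) (m y p) := by
      have h2 : N m a b (m x p) (m x q) := N_mul_left h x ha hN
      have h3 : m y p ≤ m x q := by
        have := hr1 y
        rw [← hxy] at this
        exact (this.trans (hr2 x)).le
      exact N_mono h le_rfl h3 h2
    exact N_cancel_right h ha h1
  obtain ⟨x, hx⟩ := exists_not_close h ha hab hnest c
  exact hx (r x) ⟨hclose _ _ (hc x).symm, hclose _ _ (hc x)⟩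

end nested

section hom

variable {m : X → X → X} (h : IsMean m) {a b : X}

/-- the approximating sequence `y - e^k s... (y-a)` -/
def W (m : X → X → X) (a y : X) (k : ℕ) : X := (E m y)^[k] (m y a)

omit [LinearOrder X] in
theorem W_zero (m : X → X → X) (a y : X) : W m a y 0 = m y a := rfl

omit [LinearOrder X] in
theorem W_succ (m : X → X → X) (a y : X) (k : ℕ) :
    W m a y (k + 1) = m (m y (W m a y k)) y := by
  unfold W
  rw [Function.iterate_succ_apply']
  rfl

include h in
theorem W_le (ha : ∀ x, a ≤ x) (y : X) (k : ℕ) : W m a y k ≤ y := by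
  induction k with
  | zero =>
    rw [W_zero]
    calc m y a ≤ m y y := h.lel _ (ha y)
      _ = y := h.idem y
  | succ k ih =>
    rw [W_succ]
    calc m (m y (W m a y k)) y ≤ m (m y y) y := h.ler _ (h.lel _ ih)
      _ = y := by rw [h.idem, h.idem]

include h in
theorem W_lt {y : X} (hy : a < y) (k : ℕ) : W m a y k < y := by
  induction k with
  | zero =>
    rw [W_zero]
    calc m y a < m y y := h.ltl _ _ _ hy
      _ = y := h.idem y
  | succ k ih =>
    rw [W_succ]
    calc m (m y (W m a y k)) y < m (m y y) y := h.ltr _ _ _ (h.ltl _ _ _ ih)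
      _ = y := by rw [h.idem, h.idem]

include h in
theorem key_iter {Y w : X} (h0 : m Y a < m w b) (k : ℕ) :
    m Y a < m ((E m Y)^[k] w) (Q m a b k) := by
  induction k with
  | zero => exact h0
  | succ k ih =>
    rw [Function.iterate_succ_apply', Q_succ]
    set w' := (E m Y)^[k] w
    unfold E
    rw [h.med]
    -- ((Y∘w')∘(a∘Q)) ∘ (Y∘a)
    have h1 : m Y a < m (m Y w') (m a (Q m a b k)) := by
      rw [h.med Y w' a]
      calc m Y a = m (m Y a) (m Y a) := (h.idem _).symm
        _ < _ := h.ltl _ _ _ ih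
    calc m Y a = m (m Y a) (m Y a) := (h.idem _).symm
      _ < _ := h.ltr _ _ _ h1

/-- Left approximation for homomorphisms: if `G` is a monotone homomorphism from a product,
then the values along the approximating sequence exceed any `t < G y`. -/
theorem exists_lt (h : IsMean m) (ha : ∀ x, a ≤ x) (hb : ∀ x, x ≤ b) (hab : a < b)
    (hnest : ∀ u v : ℕ → X, Monotone u → Antitone v → (∀ n, u n ≤ v n) →
      ∃ x, ∀ n, u n ≤ x ∧ x ≤ v n)
    (hsep : ∃ d : ℕ → X, ∀ x y, x < y → ∃ n, x < d n ∧ d n < y)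
    {ι : Type*} (G : (ι → X) → X)
    (hG : ∀ x y : ι → X, G (fun i => m (x i) (y i)) = m (G x) (G y))
    (y : ι → X) {t : X} (ht : t < G y) :
    ∃ k, t < G (fun i => W m a (y i) k) := by
  obtain ⟨k, hk⟩ := theoremA h ha hab hnest hsep ht
  refine ⟨k, ?_⟩
  have hW : ∀ k, G (fun i => W m a (y i) k) = (E m (G y))^[k] (m (G y) (G fun _ => a)) := by
    intro k
    induction k with
    | zero =>
      simp only [W_zero, Function.iterate_zero, id]
      exact hG y (fun _ => a)
    | succ k ih =>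
      rw [Function.iterate_succ_apply', ← ih]
      simp only [W_succ]
      unfold E
      rw [hG (fun i => m (y i) (W m a (y i) k)) y, hG y]
  rw [hW]
  have h0 : m (G y) a < m (m (G y) (G fun _ => a)) b := by
    have hlt : m (G y) a < b := by
      rcases (ha (G y)).lt_or_eq with h1 | h1
      · exact lt_of_lt_of_le (h.lt_right' h1) (hb _)
      · rw [← h1, h.idem]; exact hab
    calc m (G y) a = m (m (G y) a) (m (G y) a) := (h.idem _).symm
      _ < m (m (G y) a) b := h.ltl _ _ _ hlt
      _ ≤ _ := h.ler _ (h.lel _ (ha _))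
  have h1 := key_iter h h0 k
  have h2 := lt_of_le_of_lt hk h1
  exact h.lt_of_ltr _ h2

end hom

end Pool.Agent.Helper50.Bisym
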