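import Mathlib
import Pool.Agent.Helper50.Bisym

set_option autoImplicit false

namespace Pool.Agent.Helper50.Bisym

universe u

section dual

variable {X : Type u} [LinearOrder X] {m : X → X → X} (h : IsMean m) {a b : X}

include h in
theorem IsMean.dual : IsMean (X := Xᵒᵈ) m :=
  ⟨h.idem, h.med, fun x y z hxy => h.ltr y x z hxy, fun x y z hxy => h.ltl y x z hxy⟩

theorem exists_gt (h : IsMean m) (ha : ∀ x, a ≤ x) (hb : ∀ x, x ≤ b) (hab : a < b)
    (hnest : ∀ u v : ℕ → X, Monotone u → Antitone v → (∀ n, u n ≤ v n) →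
      ∃ x, ∀ n, u n ≤ x ∧ x ≤ v n)
    (hsep : ∃ d : ℕ → X, ∀ x y, x < y → ∃ n, x < d n ∧ d n < y)
    {ι : Type*} (G : (ι → X) → X)
    (hG : ∀ x y : ι → X, G (fun i => m (x i) (y i)) = m (G x) (G y))
    (y : ι → X) {t : X} (ht : G y < t) :
    ∃ k, G (fun i => W m b (y i) k) < t := by
  refine exists_lt (X := Xᵒᵈ) (m := m) (a := b) (b := a) h.dual hb ha hab ?_ ?_ G hG y ht
  · intro u v hu hv huv
    obtain ⟨x, hx⟩ := hnest v u (fun i j hij => hv hij) (fun i j hij => hu hij) huv
    exact ⟨x, fun n => ⟨(hx n).2, (hx n).1⟩⟩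
  · obtain ⟨d, hd⟩ := hsep
    refine ⟨d, fun x y hxy => ?_⟩
    obtain ⟨n, hn⟩ := hd y x hxy
    exact ⟨n, hn.2, hn.1⟩

end dual

section icc

variable {a b : ℝ}

theorem nest_Icc (u v : ℕ → Set.Icc a b) (hu : Monotone u) (hv : Antitone v)
    (huv : ∀ n, u n ≤ v n) : ∃ x, ∀ n, u n ≤ x ∧ x ≤ v n := by
  have key : ∀ n m, u n ≤ v m := fun n m =>
    (hu (le_max_left n m)).trans ((huv _).trans (hv (le_max_right n m)))
  have hbdd : BddAbove (Set.range fun n => (u n : ℝ)) := ⟨b, by
    rintro _ ⟨n, rfl⟩; exact (u n).2.2⟩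
  have h1 : ∀ n, (u n : ℝ) ≤ ⨆ n, (u n : ℝ) := fun n => le_ciSup hbdd n
  have h2 : ∀ m, (⨆ n, (u n : ℝ)) ≤ v m := fun m => ciSup_le fun n => key n m
  refine ⟨⟨⨆ n, (u n : ℝ), (u 0).2.1.trans (h1 0), (h2 0).trans (v 0).2.2⟩, fun n => ⟨h1 n, h2 n⟩⟩

theorem sep_Icc (hab : a < b) :
    ∃ d : ℕ → Set.Icc a b, ∀ x y, x < y → ∃ n, x < d n ∧ d n < y := by
  have : Nonempty (Set.Icc a b) := ⟨⟨a, le_refl _, hab.le⟩⟩
  refine ⟨TopologicalSpace.denseSeq (Set.Icc a b), fun x y hxy => ?_⟩
  have hne : (Set.Ioo x y).Nonempty := by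
    refine ⟨⟨((x : ℝ) + y) / 2, ?_, ?_⟩, ?_, ?_⟩
    · have := x.2.1; have := y.2.1; linarith
    · have := x.2.2; have := y.2.2; linarith
    · have : (x : ℝ) < y := hxy
      show (x : ℝ) < (x + y) / 2
      linarith
    · have : (x : ℝ) < y := hxy
      show ((x : ℝ) + y) / 2 < y
      linarith
  obtain ⟨z, hz, n, rfl⟩ :=
    (TopologicalSpace.denseRange_denseSeq (Set.Icc a b)).inter_open_nonempty _ isOpen_Ioo hne
  exact ⟨n, hz.1, hz.2⟩

/-- Every monotone homomorphism from a finite power is continuous. -/
theorem continuous_hom (hab : a < b) {m : Set.Icc a b → Set.Icc a b → Set.Icc a b}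
    (h : IsMean m) {n : ℕ} (G : (Fin n → Set.Icc a b) → Set.Icc a b)
    (hmono : ∀ x y, (∀ i, x i ≤ y i) → G x ≤ G y)
    (hG : ∀ x y : Fin n → Set.Icc a b, G (fun i => m (x i) (y i)) = m (G x) (G y)) :
    Continuous G := by
  set A : Set.Icc a b := ⟨a, le_refl _, hab.le⟩ with hA
  set B : Set.Icc a b := ⟨b, hab.le, le_refl _⟩ with hB
  have hA' : ∀ x : Set.Icc a b, A ≤ x := fun x => x.2.1
  have hB' : ∀ x : Set.Icc a b, x ≤ B := fun x => x.2.2
  have hAB : A < B := hab
  rw [continuous_iff_continuousAt]
  intro y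
  refine tendsto_order.2 ⟨fun t ht => ?_, fun t ht => ?_⟩
  · obtain ⟨k, hk⟩ := exists_lt h hA' hB' hAB nest_Icc (sep_Icc hab) G hG y ht
    have hev : ∀ᶠ z in nhds y, ∀ i, W m A (y i) k ≤ z i := by
      rw [Filter.eventually_all]
      intro i
      rcases (hA' (y i)).lt_or_eq with h1 | h1
      · have h2 := W_lt h h1 k
        have h3 : Filter.Tendsto (fun z : Fin n → Set.Icc a b => z i) (nhds y) (nhds (y i)) :=
          (continuous_apply i).tendsto y
        exact (h3.eventually_const_lt h2).mono fun z hz => hz.le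
      · refine Filter.Eventually.of_forall fun z => ?_
        calc W m A (y i) k ≤ y i := W_le h hA' (y i) k
          _ = A := h1.symm
          _ ≤ _ := hA' _
    exact hev.mono fun z hz => lt_of_lt_of_le hk (hmono _ _ hz)
  · obtain ⟨k, hk⟩ := exists_gt h hA' hB' hAB nest_Icc (sep_Icc hab) G hG y ht
    have hev : ∀ᶠ z in nhds y, ∀ i, z i ≤ W m B (y i) k := by
      rw [Filter.eventually_all]
      intro i
      rcases (hB' (y i)).lt_or_eq with h1 | h1
      · have h2 : y i < W m B (y i) k := W_lt (X := (Set.Icc a b)ᵒᵈ) h.dual h1 k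
        have h3 : Filter.Tendsto (fun z : Fin n → Set.Icc a b => z i) (nhds y) (nhds (y i)) :=
          (continuous_apply i).tendsto y
        exact (h3.eventually_lt_const h2).mono fun z hz => hz.le
      · refine Filter.Eventually.of_forall fun z => ?_
        have h4 : y i ≤ W m B (y i) k := W_le (X := (Set.Icc a b)ᵒᵈ) h.dual hB' (y i) k
        have h5 : z i ≤ B := hB' _
        have h6 : B = y i := h1.symm
        rw [h6] at h5
        exact h5.trans h4
    exact hev.mono fun z hz => lt_of_le_of_lt (hmono _ _ hz) hk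

/-- monotonicity from partial strict monotonicity -/
theorem mono_of_partial {X : Type u} [LinearOrder X] {n : ℕ} (F : (Fin n → X) → X)
    (hF : ∀ (x : Fin n → X) (i : Fin n), StrictMono (fun t : X => F (Function.update x i t)))
    (x y : Fin n → X) (hxy : ∀ i, x i ≤ y i) : F x ≤ F y := by
  classical
  have key : ∀ s : Finset (Fin n), F x ≤ F (fun i => if i ∈ s then y i else x i) := by
    intro s
    induction s using Finset.induction_on with
    | empty => simp
    | insert j s hj ih =>
      refine ih.trans ?_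
      have h1 : (fun i => if i ∈ s then y i else x i) =
          Function.update (fun i => if i ∈ s then y i else x i) j (x j) := by
        ext i
        by_cases hij : i = j
        · subst hij; simp [hj]
        · simp [hij]
      have h2 : (fun i => if i ∈ insert j s then y i else x i) =
          Function.update (fun i => if i ∈ s then y i else x i) j (y j) := by
        ext i
        by_cases hij : i = j
        · subst hij; simp
        · simp [hij]
      rw [h2, h1]
      rw [Function.update_idem]
      exact (hF _ j).monotone (hxy j)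
  simpa using key Finset.univ

theorem main (a b : ℝ) (hab : a < b) (n : ℕ) (hn : 2 ≤ n)
    (F : (Fin n → Set.Icc a b) → Set.Icc a b)
    (hidem : ∀ x : Set.Icc a b, F (fun _ => x) = x)
    (hbi : ∀ M : Fin n → Fin n → Set.Icc a b,
            F (fun i => F (M i)) = F (fun j => F (fun i => M i j)))
    (hF : ∀ (x : Fin n → Set.Icc a b) (i : Fin n),
            StrictMono (fun t : Set.Icc a b => F (Function.update x i t))) :
    Continuous F := by
  classical
  let i₀ : Fin n := ⟨0, by omega⟩
  let i₁ : Fin n := ⟨1, by omega⟩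
  have hi : i₁ ≠ i₀ := by simp [i₀, i₁]
  let m : Set.Icc a b → Set.Icc a b → Set.Icc a b := fun x y => F (Function.update (fun _ => x) i₀ y)
  have hm : ∀ x y, m x y = F (Function.update (fun _ => x) i₀ y) := fun _ _ => rfl
  have hmono := mono_of_partial F hF
  have hG : ∀ x y : Fin n → Set.Icc a b, F (fun i => m (x i) (y i)) = m (F x) (F y) := by
    intro x y
    have := hbi (fun i => Function.update (fun _ => x i) i₀ (y i))
    simp only [hm]
    rw [this]
    congr 1
    ext1 j
    by_cases hj : j = i₀
    · subst hj; simp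
    · simp [hj]
  have hmean : IsMean m := by
    refine ⟨?_, ?_, ?_, ?_⟩
    · intro x
      rw [hm, Function.update_eq_self_iff.2 rfl]
      exact hidem x
    · intro x y z w
      have h1 := hG (Function.update (fun _ => x) i₀ z) (Function.update (fun _ => y) i₀ w)
      have h2 : (fun i => m (Function.update (fun _ => x) i₀ z i)
          (Function.update (fun _ => y) i₀ w i)) = Function.update (fun _ => m x y) i₀ (m z w) := by
        ext1 j
        by_cases hj : j = i₀
        · subst hj; simp
        · simp [hj]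
      rw [h2] at h1
      exact h1
    · intro x y z hxy
      simp only [hm]
      have h1 : F (Function.update (fun _ => x) i₀ z) <
          F (Function.update (Function.update (fun _ => x) i₀ z) i₁ y) := by
        have h2 := hF (Function.update (fun _ => x) i₀ z) i₁ hxy
        simp only at h2
        have h3 : Function.update (Function.update (fun _ => x) i₀ z) i₁ x =
            Function.update (fun _ => x) i₀ z := by
          ext1 j
          by_cases hj : j = i₁
          · subst hj; simp [hi]
          · simp [hj]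
        rwa [h3] at h2
      refine lt_of_lt_of_le h1 (hmono _ _ fun j => ?_)
      by_cases hj : j = i₁
      · subst hj; simp [hi]
      · by_cases hj0 : j = i₀
        · subst hj0; simp [hj]
        · simp [hj, hj0, hxy.le]
    · intro x y z hxy
      exact hF (fun _ => z) i₀ hxy
  exact continuous_hom hab hmean F hmono hG

end icc

end Pool.Agent.Helper50.Bisym
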