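import Mathlib
import Pool.Agent.Helper71.SubCodeDefs

set_option autoImplicit false

/-!
# Existence of a good code

A counting argument: most matrices over `F_2` have the two properties of `GoodCode`.
-/

namespace Pool.Agent.Helper50.SubCode

open Finset Pool.Agent.Helper71.Sub

open Classical in
/-- The number of subsets with at most `M` elements. -/
theorem card_small {α : Type} [Fintype α] (M : ℕ) :
    (univ.filter fun s : Finset α => s.card ≤ M).card ≤ (Fintype.card α + 1) ^ M := by
  have h : (univ.filter fun s : Finset α => s.card ≤ M) ⊆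
      (univ : Finset (Fin M → Option α)).image
        (fun f => univ.filter fun a => ∃ j, f j = some a) := by
    intro s hs
    simp only [mem_filter, mem_univ, true_and] at hs
    simp only [mem_image, mem_univ, true_and]
    obtain ⟨g⟩ : Nonempty (s ↪ Fin M) := by
      rw [Function.Embedding.nonempty_iff_card_le]
      simpa using hs
    refine ⟨fun j => if h : ∃ a : s, g a = j then some (h.choose : α) else none, ?_⟩
    ext a
    simp only [mem_filter, mem_univ, true_and]
    constructor
    · rintro ⟨j, hj⟩
      split_ifs at hj with h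
      simp only [Option.some.injEq] at hj
      rw [← hj]
      exact h.choose.2
    · intro ha
      refine ⟨g ⟨a, ha⟩, ?_⟩
      have h : ∃ a' : s, g a' = g ⟨a, ha⟩ := ⟨⟨a, ha⟩, rfl⟩
      rw [dif_pos h]
      have := g.injective h.choose_spec
      rw [this]
  refine (card_le_card h).trans (card_image_le.trans ?_)
  simp

section Lin

variable {N J : Type} [Fintype N] [Fintype J] [DecidableEq N] [DecidableEq J]

theorem two_val (c : ZMod 2) : c = 0 ∨ c = 1 := by
  fin_cases c
  · left; rfl
  · right; rfl

theorem card_dot_eq (w : N → ZMod 2) (hw : w ≠ 0) (c : ZMod 2) :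
    2 * (univ.filter fun v : N → ZMod 2 => dot v w = c).card = Fintype.card (N → ZMod 2) := by
  obtain ⟨k₀, hk₀⟩ := Function.ne_iff.mp hw
  have hk : w k₀ = 1 := (two_val (w k₀)).resolve_left hk₀
  have hadd : ∀ v : N → ZMod 2, dot (v + Pi.single k₀ 1) w = dot v w + 1 := by
    intro v
    simp only [dot, Pi.add_apply, add_mul, sum_add_distrib]
    congr 1
    rw [Finset.sum_eq_single k₀]
    · simp [hk]
    · intro b _ hb
      simp [Pi.single_eq_of_ne hb]
    · simp
  have h1 : (univ.filter fun v : N → ZMod 2 => dot v w = c).card =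
      (univ.filter fun v : N → ZMod 2 => ¬ dot v w = c).card := by
    refine Finset.card_bij' (fun v _ => v + Pi.single k₀ 1) (fun v _ => v + Pi.single k₀ 1)
      ?_ ?_ ?_ ?_
    · intro v hv
      simp only [mem_filter, mem_univ, true_and] at hv ⊢
      rw [hadd, hv]
      intro h
      have : (1 : ZMod 2) = 0 := by
        simp at h
      exact absurd this (by decide)
    · intro v hv
      simp only [mem_filter, mem_univ, true_and] at hv ⊢
      rw [hadd]
      rcases two_val (dot v w) with h | h <;> rcases two_val c with h' | h'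
      · exact absurd (h.trans h'.symm) hv
      · rw [h, h', zero_add]
      · rw [h, h']
        decide
      · exact absurd (h.trans h'.symm) hv
    · intro v _
      rw [add_assoc]
      have : (Pi.single k₀ (1 : ZMod 2) + Pi.single k₀ 1 : N → ZMod 2) = 0 := by
        rw [← Pi.single_add]
        have : (1 : ZMod 2) + 1 = 0 := by decide
        rw [this]
        simp
      rw [this, add_zero]
    · intro v _
      rw [add_assoc]
      have : (Pi.single k₀ (1 : ZMod 2) + Pi.single k₀ 1 : N → ZMod 2) = 0 := by
        rw [← Pi.single_add]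
        have : (1 : ZMod 2) + 1 = 0 := by decide
        rw [this]
        simp
      rw [this, add_zero]
  have h2 := Finset.card_filter_add_card_filter_not (s := (univ : Finset (N → ZMod 2)))
    (fun v => dot v w = c)
  rw [← h1, Finset.card_univ] at h2
  omega

theorem card_rows (w : N → ZMod 2) (hw : w ≠ 0) (c : J → ZMod 2) :
    2 ^ Fintype.card J * (univ.filter fun A : J → N → ZMod 2 => ∀ i, dot (A i) w = c i).card =
      Fintype.card (N → ZMod 2) ^ Fintype.card J := by
  have h : (univ.filter fun A : J → N → ZMod 2 => ∀ i, dot (A i) w = c i) =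
      Fintype.piFinset fun i => univ.filter fun v : N → ZMod 2 => dot v w = c i := by
    ext A
    simp [Fintype.mem_piFinset]
  rw [h, Fintype.card_piFinset]
  have h2 : (2 : ℕ) ^ Fintype.card J = ∏ _i : J, 2 := by simp
  rw [h2, ← Finset.prod_mul_distrib]
  simp only [card_dot_eq w hw]
  simp

theorem card_supp_le (M : ℕ) :
    (univ.filter fun w : N → ZMod 2 => (univ.filter fun k => w k ≠ 0).card ≤ M).card ≤
      (Fintype.card N + 1) ^ M := by
  refine le_trans ?_ (card_small (α := N) M)
  refine Finset.card_le_card_of_injOn (fun w => univ.filter fun k => w k ≠ 0) ?_ ?_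
  · intro w hw
    simpa using hw
  · intro w _ w' _ h
    funext k
    have hk : k ∈ (univ.filter fun k => w k ≠ 0) ↔ k ∈ (univ.filter fun k => w' k ≠ 0) := by
      simp only at h
      rw [h]
    simp only [mem_filter, mem_univ, true_and] at hk
    rcases two_val (w k) with h1 | h1 <;> rcases two_val (w' k) with h2 | h2 <;>
      simp_all

/-- Linear duality. -/
theorem exists_functional (T : Set (N → ZMod 2)) (x : N → ZMod 2)
    (hx : x ∉ Submodule.span (ZMod 2) T) :
    ∃ y : N → ZMod 2, dot x y = 1 ∧ ∀ t ∈ T, dot t y = 0 := by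
  classical
  have : Fact (Nat.Prime 2) := ⟨Nat.prime_two⟩
  obtain ⟨f, hf, hT⟩ := Submodule.exists_le_ker_of_notMem hx
  have hy : ∀ v, dot v (fun k => f (Pi.single k 1)) = f v := by
    intro v
    rw [LinearMap.pi_apply_eq_sum_univ f v]
    simp only [dot, smul_eq_mul]
    refine Finset.sum_congr rfl fun k _ => ?_
    congr 2
    funext j
    rw [Pi.single_apply]
    simp [eq_comm]
  refine ⟨fun k => f (Pi.single k 1), ?_, ?_⟩
  · rw [hy]
    exact (two_val _).resolve_left hf
  · intro t ht
    rw [hy]
    exact hT (Submodule.subset_span ht)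

end Lin

section Names

variable {K J : Type} [Fintype K] [Fintype J] [DecidableEq K] [DecidableEq J]

/-- The vector of a name does not depend on the rows which do not occur in it. -/
theorem vec_congr {A A' : J → Finset K → ZMod 2} {i : J} (h : ∀ i', i' ≠ i → A i' = A' i')
    {nm : Nm K J} (hnm : ∀ κ Z, nm ≠ .inr (i, κ, Z)) : vec A nm = vec A' nm := by
  rcases nm with κ | ⟨i', κ, Z⟩
  · rfl
  · have : i' ≠ i := by
      rintro rfl
      exact hnm κ Z rfl
    simp only [vec]
    rw [h i' this]

open Classical in
/-- The matrices whose row `i` depends on the other rows and the vectors named in `Q`. -/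
theorem card_span (i : J) (Q : Finset (Nm K J)) (hQ : ∀ κ Z, (Sum.inr (i, κ, Z) : Nm K J) ∉ Q) :
    Fintype.card (Finset K → ZMod 2) *
      (univ.filter fun A : J → Finset K → ZMod 2 =>
        A i ∈ Submodule.span (ZMod 2) ((A '' {i' | i' ≠ i}) ∪ (vec A '' (Q : Set (Nm K J))))).card ≤
      Fintype.card (Finset K → ZMod 2) ^ Fintype.card J * 2 ^ (Fintype.card J + Q.card) := by
  have hsub : (univ.filter fun A : J → Finset K → ZMod 2 =>
      A i ∈ Submodule.span (ZMod 2) ((A '' {i' | i' ≠ i}) ∪ (vec A '' (Q : Set (Nm K J))))) ⊆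
      ((univ.filter fun A' : J → Finset K → ZMod 2 => A' i = 0) ×ˢ
        ((univ : Finset (J → ZMod 2)) ×ˢ (univ : Finset (Q → ZMod 2)))).image
        (fun x => Function.update x.1 i ((∑ i', x.2.1 i' • x.1 i') +
          ∑ nm : Q, x.2.2 nm • vec x.1 nm)) := by
    intro A hA
    simp only [mem_filter, mem_univ, true_and] at hA
    rw [Submodule.span_union, Submodule.mem_sup] at hA
    obtain ⟨u, hu, v, hv, huv⟩ := hA
    have hu' : ∃ c : J → ZMod 2, (∑ i', c i' • (Function.update A i 0) i') = u := by
      have h1 : u ∈ Submodule.span (ZMod 2) (Set.range (Function.update A i 0)) := by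
        refine Submodule.span_mono ?_ hu
        rintro _ ⟨i', hi', rfl⟩
        exact ⟨i', by rw [Function.update_of_ne hi']⟩
      exact (Submodule.mem_span_range_iff_exists_fun (ZMod 2)).mp h1
    have hv' : ∃ d : Q → ZMod 2, (∑ nm : Q, d nm • vec (Function.update A i 0) nm) = v := by
      have h1 : v ∈ Submodule.span (ZMod 2)
          (Set.range fun nm : Q => vec (Function.update A i 0) nm) := by
        refine Submodule.span_mono ?_ hv
        rintro _ ⟨nm, hnm, rfl⟩
        refine ⟨⟨nm, hnm⟩, ?_⟩
        refine vec_congr (i := i) (fun i' hi' => Function.update_of_ne hi' _ _) ?_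
        rintro κ Z rfl
        exact hQ κ Z hnm
      exact (Submodule.mem_span_range_iff_exists_fun (ZMod 2)).mp h1
    obtain ⟨c, hc⟩ := hu'
    obtain ⟨d, hd⟩ := hv'
    simp only [mem_image, mem_product, mem_filter, mem_univ, true_and, and_true]
    refine ⟨(Function.update A i 0, c, d), by simp, ?_⟩
    simp only
    rw [hc, hd, huv, Function.update_idem, Function.update_eq_self]
  have hS : Fintype.card (Finset K → ZMod 2) *
      (univ.filter fun A' : J → Finset K → ZMod 2 => A' i = 0).card ≤
      Fintype.card (Finset K → ZMod 2) ^ Fintype.card J := by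
    have e : Fintype.card (Finset K → ZMod 2) ^ Fintype.card J =
        Fintype.card (J → Finset K → ZMod 2) := Fintype.card_fun.symm
    rw [e, ← Finset.card_univ (α := Finset K → ZMod 2), ← Finset.card_product,
      ← Finset.card_univ (α := J → Finset K → ZMod 2)]
    refine Finset.card_le_card_of_injOn (fun x => Function.update x.2 i x.1) ?_ ?_
    · intro x _
      simp
    · rintro ⟨a, A⟩ hx ⟨b, A'⟩ hy h
      simp only [coe_product, coe_univ, coe_filter, mem_univ, true_and, Set.mem_prod,
        Set.mem_univ, Set.mem_ofPred_eq] at hx hy h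
      have h1 : a = b := by
        have := congrFun h i
        simpa using this
      have h2 : A = A' := by
        funext i'
        by_cases hi : i' = i
        · rw [hi, hx, hy]
        · have := congrFun h i'
          rwa [Function.update_of_ne hi, Function.update_of_ne hi] at this
      rw [h1, h2]
  calc _ ≤ Fintype.card (Finset K → ZMod 2) *
        (((univ.filter fun A' : J → Finset K → ZMod 2 => A' i = 0).card) *
          (2 ^ Fintype.card J * 2 ^ Q.card)) := by
        apply Nat.mul_le_mul_left
        refine (Finset.card_le_card hsub).trans (Finset.card_image_le.trans ?_)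
        rw [Finset.card_product, Finset.card_product]
        simp [Finset.card_univ, Fintype.card_fun, ZMod.card]
    _ = (Fintype.card (Finset K → ZMod 2) *
        (univ.filter fun A' : J → Finset K → ZMod 2 => A' i = 0).card) *
          2 ^ (Fintype.card J + Q.card) := by
        rw [pow_add]
        ring
    _ ≤ _ := Nat.mul_le_mul_right _ hS

end Names

/-- The final numerical estimate. -/
theorem numbers (B m n V a b W Q : ℕ) (hB : 9 ≤ B) (hm : m = 2 ^ (B * (B - 1)))
    (hn : n = 2 ^ (B * B)) (hV : V = 2 ^ n)
    (hW : W ≤ (n + 1) ^ (m / (4 * (B * B + 1)))) (hQ : Q ≤ (n + m * (n * n) + 1) ^ m)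
    (ha : 2 ^ m * a ≤ m * W * V ^ m) (hb : V * b ≤ m * Q * (V ^ m * 2 ^ (m + m))) :
    a + b < V ^ m := by
  have hBB : 72 ≤ B * (B - 1) := by
    calc 72 = 9 * 8 := rfl
      _ ≤ _ := Nat.mul_le_mul hB (by omega)
  have hsq : B * B = B + B * (B - 1) := by
    obtain ⟨c, rfl⟩ : ∃ c, B = c + 1 := ⟨B - 1, by omega⟩
    simp only [Nat.add_sub_cancel]
    ring
  have hnm : n = 2 ^ B * m := by
    rw [hn, hm, ← pow_add, hsq]
  have h2B : 3 * (B * B) + 4 ≤ 2 ^ B := by
    clear hm hn hW hQ hBB hsq hnm
    induction B, hB using Nat.le_induction with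
    | base => norm_num
    | succ k hk ih =>
      rw [pow_succ]
      nlinarith
  have hm1 : 1 ≤ m := by rw [hm]; exact Nat.one_le_two_pow
  have hmlt : m < 2 ^ m := Nat.lt_two_pow_self
  -- bound for `W`
  have hW2 : W ≤ 2 ^ (m / 4) := by
    refine hW.trans ?_
    have h1 : n + 1 ≤ 2 ^ (B * B + 1) := by
      rw [pow_succ, ← hn]
      have : 1 ≤ n := by rw [hn]; exact Nat.one_le_two_pow
      omega
    refine (Nat.pow_le_pow_left h1 _).trans ?_
    rw [← pow_mul]
    apply Nat.pow_le_pow_right (by norm_num)
    rw [Nat.le_div_iff_mul_le (by norm_num)]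
    calc (B * B + 1) * (m / (4 * (B * B + 1))) * 4
        = (4 * (B * B + 1)) * (m / (4 * (B * B + 1))) := by ring
      _ ≤ m := Nat.mul_div_le _ _
  -- bound for `Q`
  have hQ2 : Q ≤ 2 ^ (3 * (B * B) * m) := by
    refine hQ.trans ?_
    have h1 : n + m * (n * n) + 1 ≤ 2 ^ (3 * (B * B)) := by
      have e1 : m * (n * n) * 2 ^ B = 2 ^ (3 * (B * B)) := by
        rw [hm, hn, ← pow_add, ← pow_add, ← pow_add]
        congr 1
        omega
      have e2 : 2 ≤ 2 ^ B := by
        calc 2 = 2 ^ 1 := rfl
          _ ≤ 2 ^ B := Nat.pow_le_pow_right (by norm_num) (by omega)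
      have e3 : n + 1 ≤ m * (n * n) := by
        have : 2 ≤ n := by
          rw [hn]
          calc 2 = 2 ^ 1 := rfl
            _ ≤ 2 ^ (B * B) := Nat.pow_le_pow_right (by norm_num) (by nlinarith)
        nlinarith
      nlinarith
    rw [pow_mul 2 (3 * (B * B)) m]
    exact Nat.pow_le_pow_left h1 m
  -- first bad set: `4 * a ≤ V ^ m`
  have hm64 : 64 ≤ m := by
    rw [hm]
    calc 64 = 2 ^ 6 := rfl
      _ ≤ _ := Nat.pow_le_pow_right (by norm_num) (by omega)
  have hm4 : 4 * m ≤ 2 ^ (m - m / 4) := by
    have key : ∀ k, 16 ≤ k → 4 * (k * 4) ≤ 2 ^ k := by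
      intro k hk
      induction k, hk using Nat.le_induction with
      | base => norm_num
      | succ k hk ih => rw [pow_succ]; omega
    have h1 := key (m - m / 4) (by omega)
    omega
  have hA : 4 * a ≤ V ^ m := by
    have h1 : 2 ^ (m / 4) * (2 ^ (m - m / 4) * a) ≤ 2 ^ (m / 4) * (m * V ^ m) := by
      calc 2 ^ (m / 4) * (2 ^ (m - m / 4) * a) = 2 ^ (m / 4 + (m - m / 4)) * a := by
            rw [pow_add]; ring
        _ = 2 ^ m * a := by congr 2; omega
        _ ≤ m * W * V ^ m := ha
        _ ≤ m * 2 ^ (m / 4) * V ^ m := by gcongr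
        _ = _ := by ring
    have h2 := Nat.le_of_mul_le_mul_left h1 (by positivity)
    have h3 : m * (4 * a) ≤ m * V ^ m := by
      calc m * (4 * a) = 4 * m * a := by ring
        _ ≤ 2 ^ (m - m / 4) * a := Nat.mul_le_mul_right _ hm4
        _ ≤ _ := h2
    exact Nat.le_of_mul_le_mul_left h3 (by omega)
  -- second bad set: `2 * b ≤ V ^ m`
  have hBb : 2 * b ≤ V ^ m := by
    have h1 : V * b ≤ 2 ^ (3 * (B * B) * m + 3 * m) * V ^ m := by
      calc V * b ≤ m * Q * (V ^ m * 2 ^ (m + m)) := hb
        _ ≤ 2 ^ m * 2 ^ (3 * (B * B) * m) * (V ^ m * 2 ^ (m + m)) := by gcongr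
        _ = _ := by
            have : 3 * (B * B) * m + 3 * m = m + 3 * (B * B) * m + (m + m) := by ring
            rw [this]
            simp only [pow_add]
            ring
    have h2 : 2 * 2 ^ (3 * (B * B) * m + 3 * m) ≤ V := by
      rw [hV, mul_comm, ← pow_succ]
      apply Nat.pow_le_pow_right (by norm_num)
      rw [hnm]
      nlinarith
    have h3 : 2 ^ (3 * (B * B) * m + 3 * m) * (2 * b) ≤
        2 ^ (3 * (B * B) * m + 3 * m) * V ^ m := by
      calc 2 ^ (3 * (B * B) * m + 3 * m) * (2 * b) = 2 * 2 ^ (3 * (B * B) * m + 3 * m) * b := by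
            ring
        _ ≤ V * b := Nat.mul_le_mul_right _ h2
        _ ≤ _ := h1
    exact Nat.le_of_mul_le_mul_left h3 (by positivity)
  have hVpos : 0 < V ^ m := by
    apply Nat.pow_pos
    rw [hV]
    positivity
  omega

open Classical in
theorem exists_goodCode (B : ℕ) (hB : 10 ≤ B) : ∃ A, GoodCode B A := by
  by_contra hcon
  push Not at hcon
  set m := 2 ^ (B * (B - 1)) with hm
  set n := 2 ^ (B * B) with hn
  set V := 2 ^ n with hV
  have hJ : Fintype.card (Finset (Fin (B * (B - 1)))) = m := by simp [hm]
  have hN : Fintype.card (Finset (Fin (B * B))) = n := by simp [hn]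
  have hVc : Fintype.card (Finset (Fin (B * B)) → ZMod 2) = V := by
    rw [Fintype.card_fun, ZMod.card, hN]
  have hNm : Fintype.card (Nm (Fin (B * B)) (Finset (Fin (B * (B - 1))))) = n + m * (n * n) := by
    rw [Fintype.card_sum, Fintype.card_prod, Fintype.card_prod, hJ, hN]
  -- the first bad set
  set Wset := univ.filter fun w : Finset (Fin (B * B)) → ZMod 2 =>
    4 * (B * B + 1) * (univ.filter fun k => w k ≠ 0).card ≤ m with hWset
  set Qset := univ.filter fun Q : Finset (Nm (Fin (B * B)) (Finset (Fin (B * (B - 1))))) =>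
    Q.card ≤ m with hQset
  set bad1 := (Wset ×ˢ (univ : Finset (Finset (Fin (B * (B - 1)))))).biUnion fun p =>
    univ.filter fun A : Finset (Fin (B * (B - 1))) → Finset (Fin (B * B)) → ZMod 2 =>
      ∀ i', dot (A i') p.1 = if i' = p.2 then 1 else 0 with hbad1
  set bad2 := ((univ : Finset (Finset (Fin (B * (B - 1))))) ×ˢ
      Qset).biUnion fun p =>
    univ.filter fun A : Finset (Fin (B * (B - 1))) → Finset (Fin (B * B)) → ZMod 2 =>
      (∀ κ Z, (Sum.inr (p.1, κ, Z) : Nm (Fin (B * B)) (Finset (Fin (B * (B - 1))))) ∉ p.2) ∧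
      A p.1 ∈ Submodule.span (ZMod 2) ((A '' {i' | i' ≠ p.1}) ∪
        (vec A '' (p.2 : Set (Nm (Fin (B * B)) (Finset (Fin (B * (B - 1)))))))) with hbad2
  have hcover : (univ : Finset (Finset (Fin (B * (B - 1))) → Finset (Fin (B * B)) → ZMod 2)) ⊆
      bad1 ∪ bad2 := by
    intro A _
    have hA := hcon A
    rw [GoodCode, not_and_or] at hA
    rw [mem_union]
    rcases hA with hA | hA
    · left
      push Not at hA
      obtain ⟨w, hw, i, hi⟩ := hA
      rw [hbad1, mem_biUnion]
      refine ⟨(w, i), ?_, ?_⟩
      · simp only [mem_product, mem_univ, and_true, hWset, mem_filter, true_and]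
        exact hw
      · simp only [mem_filter, mem_univ, true_and]
        exact hi
    · right
      push Not at hA
      obtain ⟨i, Q, hQ, hiQ, hno⟩ := hA
      rw [hbad2, mem_biUnion]
      refine ⟨(i, Q), ?_, ?_⟩
      · simp only [mem_product, mem_univ, true_and, hQset, mem_filter]
        exact hQ
      · simp only [mem_filter, mem_univ, true_and]
        refine ⟨hiQ, ?_⟩
        by_contra hns
        obtain ⟨y, hy1, hy2⟩ := exists_functional _ _ hns
        obtain ⟨nm, hnm, hne⟩ := hno y (by
          intro i'
          split_ifs with h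
          · rw [h]; exact hy1
          · exact hy2 _ (Or.inl ⟨i', h, rfl⟩))
        exact hne (hy2 _ (Or.inr ⟨nm, hnm, rfl⟩))
  have hWcard : Wset.card ≤ (n + 1) ^ (m / (4 * (B * B + 1))) := by
    refine le_trans (Finset.card_le_card ?_) (hN ▸ card_supp_le (N := Finset (Fin (B * B)))
      (m / (4 * (B * B + 1))))
    intro w hw
    simp only [hWset, mem_filter, mem_univ, true_and] at hw ⊢
    rw [Nat.le_div_iff_mul_le (by positivity)]
    rw [mul_comm]
    exact hw
  have hQcard : Qset.card ≤ (n + m * (n * n) + 1) ^ m := by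
    have := card_small (α := Nm (Fin (B * B)) (Finset (Fin (B * (B - 1))))) m
    rwa [hNm] at this
  have h1 : 2 ^ m * bad1.card ≤ m * Wset.card * V ^ m := by
    calc 2 ^ m * bad1.card ≤ 2 ^ m * ∑ p ∈ Wset ×ˢ (univ : Finset (Finset (Fin (B * (B - 1))))),
          (univ.filter fun A : Finset (Fin (B * (B - 1))) → Finset (Fin (B * B)) → ZMod 2 =>
            ∀ i', dot (A i') p.1 = if i' = p.2 then 1 else 0).card :=
          Nat.mul_le_mul_left _ Finset.card_biUnion_le
      _ = ∑ p ∈ Wset ×ˢ (univ : Finset (Finset (Fin (B * (B - 1))))), 2 ^ m *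
          (univ.filter fun A : Finset (Fin (B * (B - 1))) → Finset (Fin (B * B)) → ZMod 2 =>
            ∀ i', dot (A i') p.1 = if i' = p.2 then 1 else 0).card := Finset.mul_sum _ _ _
      _ ≤ ∑ p ∈ Wset ×ˢ (univ : Finset (Finset (Fin (B * (B - 1))))), V ^ m := by
          refine Finset.sum_le_sum fun p _ => ?_
          by_cases hp : p.1 = 0
          · have : (univ.filter fun A : Finset (Fin (B * (B - 1))) →
                Finset (Fin (B * B)) → ZMod 2 =>
                ∀ i', dot (A i') p.1 = if i' = p.2 then 1 else 0) = ∅ := by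
              rw [Finset.filter_eq_empty_iff]
              intro A _ hA
              have := hA p.2
              rw [hp] at this
              simp [dot] at this
            rw [this]
            simp
          · have := card_rows (N := Finset (Fin (B * B))) (J := Finset (Fin (B * (B - 1)))) p.1 hp
              (fun i' => if i' = p.2 then 1 else 0)
            rw [hJ, hVc] at this
            exact this.le
      _ = _ := by
          rw [Finset.sum_const, Finset.card_product, Finset.card_univ, hJ, smul_eq_mul]
          ring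
  have h2 : V * bad2.card ≤ m * Qset.card * (V ^ m * 2 ^ (m + m)) := by
    calc V * bad2.card ≤ V * ∑ p ∈ (univ : Finset (Finset (Fin (B * (B - 1))))) ×ˢ Qset,
          (univ.filter fun A : Finset (Fin (B * (B - 1))) → Finset (Fin (B * B)) → ZMod 2 =>
            (∀ κ Z, (Sum.inr (p.1, κ, Z) :
              Nm (Fin (B * B)) (Finset (Fin (B * (B - 1))))) ∉ p.2) ∧
            A p.1 ∈ Submodule.span (ZMod 2) ((A '' {i' | i' ≠ p.1}) ∪
              (vec A '' (p.2 : Set (Nm (Fin (B * B)) (Finset (Fin (B * (B - 1))))))))).card :=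
          Nat.mul_le_mul_left _ Finset.card_biUnion_le
      _ = ∑ p ∈ (univ : Finset (Finset (Fin (B * (B - 1))))) ×ˢ Qset, V *
          (univ.filter fun A : Finset (Fin (B * (B - 1))) → Finset (Fin (B * B)) → ZMod 2 =>
            (∀ κ Z, (Sum.inr (p.1, κ, Z) :
              Nm (Fin (B * B)) (Finset (Fin (B * (B - 1))))) ∉ p.2) ∧
            A p.1 ∈ Submodule.span (ZMod 2) ((A '' {i' | i' ≠ p.1}) ∪
              (vec A '' (p.2 : Set (Nm (Fin (B * B)) (Finset (Fin (B * (B - 1))))))))).card :=
          Finset.mul_sum _ _ _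
      _ ≤ ∑ p ∈ (univ : Finset (Finset (Fin (B * (B - 1))))) ×ˢ Qset, V ^ m * 2 ^ (m + m) := by
          refine Finset.sum_le_sum fun p hp => ?_
          simp only [mem_product, mem_univ, true_and, hQset, mem_filter] at hp
          by_cases hQ : ∀ κ Z, (Sum.inr (p.1, κ, Z) :
              Nm (Fin (B * B)) (Finset (Fin (B * (B - 1))))) ∉ p.2
          · have := card_span p.1 p.2 hQ
            rw [hJ, hVc] at this
            simp only [hQ, not_false_eq_true, implies_true, true_and]
            refine this.trans ?_
            gcongr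
            norm_num
          · have : (univ.filter fun A : Finset (Fin (B * (B - 1))) →
                Finset (Fin (B * B)) → ZMod 2 =>
                (∀ κ Z, (Sum.inr (p.1, κ, Z) :
                Nm (Fin (B * B)) (Finset (Fin (B * (B - 1))))) ∉ p.2) ∧
              A p.1 ∈ Submodule.span (ZMod 2) ((A '' {i' | i' ≠ p.1}) ∪
                (vec A '' (p.2 : Set (Nm (Fin (B * B)) (Finset (Fin (B * (B - 1))))))))) = ∅ := by
              rw [Finset.filter_eq_empty_iff]
              rintro A _ ⟨hA, -⟩
              exact hQ hA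
            rw [this]
            simp
      _ = _ := by
          rw [Finset.sum_const, Finset.card_product, Finset.card_univ, hJ, smul_eq_mul]
  have h3 := numbers B m n V bad1.card bad2.card Wset.card Qset.card (by omega) hm hn hV hWcard
    hQcard h1 h2
  have h4 : V ^ m ≤ bad1.card + bad2.card := by
    have h5 := (Finset.card_le_card hcover).trans (Finset.card_union_le _ _)
    rwa [Finset.card_univ, Fintype.card_fun, hJ, hVc] at h5
  omega

end Pool.Agent.Helper50.SubCode
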